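import Pool.Agent.H834.E.Cls

/-!
# Heights: the torsion points with `x` in a number field
-/

set_option autoImplicit false
set_option linter.unusedSectionVars false
set_option linter.unusedVariables false

namespace Pool.Agent.H834.E

open FF Module Pool.Agent.Q70.CH Pool.Agent.Q70.KM

section

variable {F : Type} [Field F]

open MvPolynomial in
/-- the cofactors -/
noncomputable def cof (m : F) : Fin 2 × Fin 2 → MvPolynomial (Fin 2) F :=
  ![![C (((m - 1) ^ 2)⁻¹) * (C ((m - 1) ^ 2) * X 0 ^ 3 + C ((2 * m + 2) * m) * (X 0 ^ 2 * X 1) +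
        C (-3 * m ^ 2) * (X 0 * X 1 ^ 2)),
      C ((4 * (m - 1) ^ 2)⁻¹) * (C (-2 * m * (m + 1)) * X 0 ^ 3 + C (-5 * m ^ 2) * (X 0 ^ 2 * X 1) +
        C ((m + 1) * m ^ 2) * (X 0 * X 1 ^ 2) + C (3 * m ^ 3) * X 1 ^ 3)],
    ![C ((m ^ 2 * (m - 1) ^ 2)⁻¹) * (C (-3) * (X 0 ^ 2 * X 1) + C (2 * m + 2) * (X 0 * X 1 ^ 2) +
        C ((m - 1) ^ 2) * X 1 ^ 3),
      C ((4 * m ^ 2 * (m - 1) ^ 2)⁻¹) * (C 3 * X 0 ^ 3 + C (m + 1) * (X 0 ^ 2 * X 1) +
        C (-5 * m) * (X 0 * X 1 ^ 2) + C (-2 * m * (m + 1)) * X 1 ^ 3)]].uncurry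

open MvPolynomial in
lemma cof_hom (m : F) (a : Fin 2 × Fin 2) : (cof m a).IsHomogeneous 3 := by
  have h1 : ∀ (c : F) (i : Fin 2), (C c * X i ^ 3 : MvPolynomial (Fin 2) F).IsHomogeneous 3 := by
    intro c i
    have := ((isHomogeneous_X F i).pow 3).C_mul c
    simpa using this
  have h2 : ∀ (c : F), (C c * (X 0 ^ 2 * X 1) : MvPolynomial (Fin 2) F).IsHomogeneous 3 := by
    intro c
    have := (((isHomogeneous_X F (0 : Fin 2)).pow 2).mul (isHomogeneous_X F (1 : Fin 2))).C_mul c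
    simpa using this
  have h3 : ∀ (c : F), (C c * (X 0 * X 1 ^ 2) : MvPolynomial (Fin 2) F).IsHomogeneous 3 := by
    intro c
    have := ((isHomogeneous_X F (0 : Fin 2)).mul ((isHomogeneous_X F (1 : Fin 2)).pow 2)).C_mul c
    simpa using this
  obtain ⟨i, j⟩ := a
  fin_cases i <;> fin_cases j
  · exact (((h1 _ 0).add (h2 _)).add (h3 _)).C_mul _
  · exact ((((h1 _ 0).add (h2 _)).add (h3 _)).add (h1 _ 1)).C_mul _
  · exact (((h2 _).add (h3 _)).add (h1 _ 1)).C_mul _
  · exact ((((h1 _ 0).add (h2 _)).add (h3 _)).add (h1 _ 1)).C_mul _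

open MvPolynomial in
/-- the duplication map -/
noncomputable def dupl (m : F) : Fin 2 → MvPolynomial (Fin 2) F :=
  ![(X 0 ^ 2 - C m * X 1 ^ 2) ^ 2, C 4 * (X 0 * X 1 * (X 0 - X 1) * (X 0 - C m * X 1))]

open MvPolynomial in
lemma cof_spec [CharZero F] {m : F} (h0 : m ≠ 0) (h1 : m ≠ 1) (x : Fin 2 → F) (i : Fin 2) :
    ∑ j, (cof m (i, j)).eval x * (dupl m j).eval x = x i ^ (3 + 4) := by
  have h1' : m - 1 ≠ 0 := sub_ne_zero.2 h1
  fin_cases i
  · simp only [Fin.sum_univ_two, cof, dupl, Function.uncurry, Matrix.cons_val_zero,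
      Matrix.cons_val_one, Fin.zero_eta, Fin.isValue, map_mul, map_add, map_sub, map_pow, eval_X,
      eval_C]
    field_simp
    ring
  · simp only [Fin.sum_univ_two, cof, dupl, Function.uncurry, Matrix.cons_val_zero,
      Matrix.cons_val_one, Fin.mk_one, Fin.isValue, map_mul, map_add, map_sub, map_pow, eval_X,
      eval_C]
    field_simp
    ring

open Height in
/-- The height of the double of a point. -/
theorem height_dbl [NumberField F] {m : F} (h0 : m ≠ 0) (h1 : m ≠ 1) :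
    ∃ C : ℝ, ∀ a a' : F, a * (a - 1) * (a - m) ≠ 0 →
      a' * (4 * (a * (a - 1) * (a - m))) = (a ^ 2 - m) ^ 2 →
      C + 4 * logHeight₁ a ≤ logHeight₁ a' := by
  obtain ⟨C, hC⟩ := logHeight_eval_ge' (M := 3) (N := 4) (q := cof m) (cof_hom m)
  refine ⟨C, fun a a' ha haa => ?_⟩
  have h2 := hC (dupl m) (x := ![a, 1]) (cof_spec h0 h1 _)
  rw [← logHeight₁_eq_logHeight] at h2
  have : CharZero F := NumberField.to_charZero
  have h4 : (4 : F) * (a * (a - 1) * (a - m)) ≠ 0 := mul_ne_zero (by norm_num) ha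
  have h3 : (fun j => MvPolynomial.eval ![a, 1] (dupl m j)) =
      ![(a ^ 2 - m) ^ 2, 4 * (a * (a - 1) * (a - m))] := by
    funext j
    fin_cases j
    · simp [dupl]
    · simp [dupl]
  rw [h3, ← logHeight₁_div_eq_logHeight, ← haa, mul_div_assoc, div_self h4, mul_one] at h2
  exact_mod_cast h2

end

section

variable {k : Type} [Field k] [CharZero k] [IsAlgClosed k] {K : Type} [Field K] [Algebra k K]
  [IsFF k K]

namespace Ell

variable {l : k} {x y : K} {σ : K ≃ₐ[k] K} {O : Place k K}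

lemma dbl_x (E : Ell l x y σ O) {P : Place k K} {a b : k} (ha : At P x a) (hb : At P y b)
    (hb0 : b ≠ 0) : ∃ (R : Place k K) (a' : k), At R x a' ∧
      a' * (4 * (a * (a - 1) * (a - l))) = (a ^ 2 - l) ^ 2 ∧ dz O P + dz O P = dz O R := by
  obtain ⟨s, R, hs, hR, -, h⟩ := E.dbl ha hb hb0
  refine ⟨R, _, hR, ?_, h⟩
  have h2 := E.b_sq ha hb
  have h1 : 2 * b * s = 3 * a ^ 2 - 2 * (1 + l) * a + l := by
    rw [hs]
    field_simp
  rw [← h2]
  have h3 : 4 * b ^ 2 * s ^ 2 = (3 * a ^ 2 - 2 * (1 + l) * a + l) ^ 2 := by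
    rw [← h1]; ring
  linear_combination h3 + (4 * (1 + l - 2 * a)) * h2

/-- There are only finitely many torsion points with `x` in a number field. -/
theorem torsion_finite (E : Ell l x y σ O) (F : Type) [Field F] [NumberField F] [Algebra F k]
    (m : F) (hm : algebraMap F k m = l) :
    {a : F | ∃ Q : Place k K, At Q x (algebraMap F k a) ∧ IsOfFinAddOrder (dz O Q)}.Finite := by
  classical
  have hinj : Function.Injective (algebraMap F k) := (algebraMap F k).injective
  have h0 : m ≠ 0 := by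
    rintro rfl
    exact E.l0 (by rw [← hm, map_zero])
  have h1 : m ≠ 1 := by
    rintro rfl
    exact E.l1 (by rw [← hm, map_one])
  obtain ⟨C, hC⟩ := height_dbl h0 h1
  set M : ℝ := max (-C / 3) (max (Height.logHeight₁ (0 : F)) (max (Height.logHeight₁ (1 : F))
    (Height.logHeight₁ m))) with hM
  have hN : {a : F | Height.logHeight₁ a ≤ M}.Finite := Northcott.finite_le M
  refine hN.subset ?_
  rintro a ⟨Q, hQ, hfin⟩
  rw [Set.mem_ofPred_eq]
  -- the finite set of multiples
  let S : Set (Place k K) := {R | dz O R ∈ AddSubgroup.zmultiples (dz O Q) ∧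
    ∃ c : F, At R x (algebraMap F k c)}
  have hSfin : S.Finite := by
    have h2 : (AddSubgroup.zmultiples (dz O Q) : Set (ClZ k K)).Finite :=
      hfin.finite_zmultiples
    refine Set.Finite.subset (h2.preimage (f := dz O) fun P _ P' _ h => E.inj h) ?_
    rintro R ⟨hR, -⟩
    exact hR
  have hQS : Q ∈ S := ⟨AddSubgroup.mem_zmultiples _, a, hQ⟩
  let H : Place k K → ℝ := fun R =>
    if h : ∃ c : F, At R x (algebraMap F k c) then Height.logHeight₁ h.choose else 0
  have hH : ∀ (R : Place k K) (c : F), At R x (algebraMap F k c) → H R = Height.logHeight₁ c := by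
    intro R c hc
    have h : ∃ c : F, At R x (algebraMap F k c) := ⟨c, hc⟩
    have h2 : h.choose = c := hinj (h.choose_spec.unique hc)
    change (if h : ∃ c : F, At R x (algebraMap F k c) then Height.logHeight₁ h.choose else 0) = _
    rw [dif_pos h, h2]
  obtain ⟨R, ⟨hR1, c, hc⟩, hmax⟩ := Set.exists_max_image S H hSfin ⟨Q, hQS⟩
  have hle := hmax Q hQS
  rw [hH Q a hQ, hH R c hc] at hle
  refine hle.trans ?_
  by_contra hcon
  push Not at hcon
  obtain ⟨b, hb, hbe⟩ := E.h.y_at hc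
  rw [lg_eval] at hbe
  have hc0 : c * (c - 1) * (c - m) ≠ 0 := by
    intro h2
    rcases mul_eq_zero.1 h2 with h2 | h2
    · rcases mul_eq_zero.1 h2 with h2 | h2
      · rw [h2] at hcon
        exact absurd hcon (not_lt.2 (by rw [hM]; simp))
      · rw [sub_eq_zero.1 h2] at hcon
        exact absurd hcon (not_lt.2 (by rw [hM]; simp))
    · rw [sub_eq_zero.1 h2] at hcon
      exact absurd hcon (not_lt.2 (by rw [hM]; simp))
  have hcast : algebraMap F k (c * (c - 1) * (c - m)) =
      algebraMap F k c * (algebraMap F k c - 1) * (algebraMap F k c - l) := by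
    rw [map_mul, map_mul, map_sub, map_sub, map_one, hm]
  have hb0 : b ≠ 0 := by
    rintro rfl
    apply hc0
    apply hinj
    rw [hcast, ← hbe, map_zero]
    ring
  obtain ⟨R', a', hR', he, hd⟩ := E.dbl_x hc hb hb0
  -- the `x`-coordinate of the double is in `F`
  set c' : F := (c ^ 2 - m) ^ 2 / (4 * (c * (c - 1) * (c - m))) with hc'
  have : CharZero F := NumberField.to_charZero
  have h4 : (4 : F) * (c * (c - 1) * (c - m)) ≠ 0 := mul_ne_zero (by norm_num) hc0
  have he' : c' * (4 * (c * (c - 1) * (c - m))) = (c ^ 2 - m) ^ 2 := div_mul_cancel₀ _ h4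
  have h5 : algebraMap F k c' = a' := by
    have h6 := congrArg (algebraMap F k) he'
    rw [map_mul, map_mul, hcast, map_pow, map_sub, map_pow, hm, map_ofNat, ← he] at h6
    refine mul_right_cancel₀ ?_ h6
    rw [← hcast, ← map_ofNat (algebraMap F k), ← map_mul]
    exact fun h7 => h4 (hinj (h7.trans (map_zero _).symm))
  rw [← h5] at hR'
  have hR'S : R' ∈ S := ⟨by rw [← hd]; exact add_mem hR1 hR1, c', hR'⟩
  have h7 := hmax R' hR'S
  rw [hH R' c' hR', hH R c hc] at h7
  have h8 := hC c c' hc0 he'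
  have h9 : -C / 3 < Height.logHeight₁ c := lt_of_le_of_lt (le_max_left _ _) hcon
  linarith

end Ell

end

end Pool.Agent.H834.E
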