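import Pool.Agent.H834.E.Curve
import Pool.Agent.H834.E.Ht

/-!
# The vanishing of the exterior products and the action of the Galois group
-/

set_option autoImplicit false
set_option linter.unusedSectionVars false
set_option linter.unusedVariables false

namespace Pool.Agent.H834.E

open FF Polynomial Module Pool.Agent.Q70.CH Pool.Agent.Q70.KM

section

variable {k : Type} [Field k] [CharZero k] [IsAlgClosed k]
  {K : Type} [Field K] [Algebra k K] [IsFF k K] {L : Type} [Field L] [Algebra k L] [IsFF k L]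

lemma Ell.dif_neg {l : k} {x y : K} {σ : K ≃ₐ[k] K} {O : Place k K} (E : Ell l x y σ O)
    (P : Place k K) : dif O (P.comp σ) = - dif O P := by
  have h := congrArg (toQ (k := k) (K := K)) (E.dz_neg P)
  rw [map_add, map_zero, toQ_dz, toQ_dz, add_comm] at h
  exact eq_neg_of_add_eq_zero_left h

/-- The exterior product of `P - O` and `Q - O'` is zero if `x(P) = x'(Q)`. -/
theorem times_zero {l m : k} {x y : K} {σ : K ≃ₐ[k] K} {O : Place k K} (E : Ell l x y σ O)
    {x' y' : L} {σ' : L ≃ₐ[k] L} {O' : Place k L} (E' : Ell m x' y' σ' O') (hlm : l ≠ m)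
    {P : Place k K} {Q : Place k L} {a b b' : k} (ha : At P x a) (hb : At P y b) (ha' : At Q x' a)
    (hb' : At Q y' b') (hb0 : b ≠ 0) : times (dif O P) (dif O' Q) = 0 := by
  have h := basic E E' hlm ha hb ha' hb' hb0
  rw [← cl2_eq_zero, map_sub, map_add] at h
  have h2 : (Finsupp.single (O, O') 2 : Place k K × Place k L →₀ ℚ) =
      (2 : ℚ) • Finsupp.single (O, O') 1 := by
    rw [Finsupp.smul_single, smul_eq_mul, mul_one]
  rw [h2, map_smul, ← times_pt, ← times_pt, ← times_pt] at h
  have h3 : pt (P.comp σ) = (2 : ℚ) • pt O - pt P := by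
    have := E.dif_neg P
    unfold dif at this
    rw [two_smul, eq_add_of_sub_eq this]
    abel
  have h4 : pt (Q.comp σ') = (2 : ℚ) • pt O' - pt Q := by
    have := E'.dif_neg Q
    unfold dif at this
    rw [two_smul, eq_add_of_sub_eq this]
    abel
  rw [h3, h4] at h
  simp only [map_sub, map_smul, LinearMap.sub_apply, LinearMap.smul_apply] at h
  have h5 : (2 : ℚ) • times (dif O P) (dif O' Q) = 0 := by
    rw [← h]
    unfold dif
    simp only [map_sub, LinearMap.sub_apply]
    module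
  exact (smul_eq_zero.1 h5).resolve_left two_ne_zero

/-! ### The action of automorphisms of the constant field -/

/-- the place `f ↦ P(Φ f)` for a semilinear automorphism `Φ` -/
def tw (σ : k ≃+* k) (Φ : K ≃+* K) (hΦ : ∀ c : k, Φ (algebraMap k K c) = algebraMap k K (σ c))
    (P : Place k K) : Place k K where
  ord f := P.ord (Φ f)
  ord_zero := by rw [map_zero, P.ord_zero]
  ord_mul := by
    intro f g hf hg
    rw [map_mul]
    exact P.ord_mul (by simpa using hf) (by simpa using hg)
  ord_add := by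
    intro f g hf hg hfg
    rw [map_add]
    refine P.ord_add (by simpa using hf) (by simpa using hg) ?_
    rw [← map_add]
    exact (map_ne_zero_iff _ Φ.injective).2 hfg
  ord_const := by
    intro c hc
    rw [hΦ]
    exact P.ord_const (by simpa using hc)
  surj := by
    obtain ⟨t, ht0, ht⟩ := P.surj
    exact ⟨Φ.symm t, by simpa using ht0, by simpa using ht⟩

lemma at_tw (σ : k ≃+* k) (Φ : K ≃+* K) (hΦ : ∀ c : k, Φ (algebraMap k K c) = algebraMap k K (σ c))
    (P : Place k K) (f : K) (c : k) : At (tw σ Φ hΦ P) f c ↔ At P (Φ f) (σ c) := by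
  rw [at_iff, at_iff]
  have h1 : (tw σ Φ hΦ P).ord (f - algebraMap k K c) = P.ord (Φ f - algebraMap k K (σ c)) := by
    change P.ord (Φ _) = _
    rw [map_sub, hΦ]
  rw [h1]
  have h2 : f = algebraMap k K c ↔ Φ f = algebraMap k K (σ c) := by
    rw [← hΦ c]
    exact Φ.injective.eq_iff.symm
  rw [h2]

/-- The existence of the semilinear automorphism. -/
theorem Dbl.exists_semi {f : k[X]} {x y : K} (h : Dbl k f x y) (hf : f.Separable)
    (hd : 0 < f.natDegree) (σ : k ≃+* k) (hσ : f.map (σ : k →+* k) = f) :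
    ∃ Φ : K ≃+* K, (∀ c : k, Φ (algebraMap k K c) = algebraMap k K (σ c)) ∧ Φ x = x ∧ Φ y = y := by
  have hev : ∀ p : k[X], p.eval₂ ((algebraMap k K).comp (σ : k →+* k)) x =
      aeval x (p.map (σ : k →+* k)) := by
    intro p
    rw [aeval_def, eval₂_map]
  obtain ⟨Φ, h1, h2, h3⟩ := h.lift hf hd ((algebraMap k K).comp (σ : k →+* k)) x y (by
    intro p q hpq
    change p.eval₂ _ x = q.eval₂ _ x at hpq
    rw [hev, hev] at hpq
    exact map_injective _ (σ : k →+* k).injective (transcendental_iff_injective.1 h.tr hpq)) (by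
    rw [hev, hσ, h.eq])
  have hs : Function.Surjective Φ := by
    let R : IntermediateField k K := Φ.fieldRange.toIntermediateField (fun c =>
      ⟨algebraMap k K (σ.symm c), by rw [h1]; simp⟩)
    have hR : R = ⊤ := by
      rw [eq_top_iff, ← h.gen, IntermediateField.adjoin_le_iff]
      rintro z hz
      rcases hz with rfl | hz
      · exact ⟨_, h2⟩
      · rw [Set.mem_singleton_iff] at hz
        subst hz
        exact ⟨_, h3⟩
    intro z
    have hz : z ∈ R := by rw [hR]; trivial
    exact hz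
  exact ⟨RingEquiv.ofBijective Φ ⟨Φ.injective, hs⟩, h1, h2, h3⟩

lemma tw_div (σ : k ≃+* k) (Φ : K ≃+* K)
    (hΦ : ∀ c : k, Φ (algebraMap k K c) = algebraMap k K (σ c)) (t : K) :
    (qdiv (k := k) t).mapDomain (tw σ Φ hΦ) = qdiv (k := k) (Φ.symm t) := by
  have hinj : Function.Injective (tw σ Φ hΦ) := by
    intro P P' h
    ext f
    have := congrArg (fun Q : Place k K => Q.ord (Φ.symm f)) h
    change P.ord (Φ (Φ.symm f)) = P'.ord (Φ (Φ.symm f)) at this
    rwa [Φ.apply_symm_apply] at this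
  have hsurj : Function.Surjective (tw σ Φ hΦ) := by
    intro P
    have hΦ' : ∀ c : k, Φ.symm (algebraMap k K c) = algebraMap k K (σ.symm c) := by
      intro c
      rw [RingEquiv.symm_apply_eq, hΦ]
      simp
    refine ⟨tw σ.symm Φ.symm hΦ' P, ?_⟩
    ext f
    change P.ord (Φ.symm (Φ f)) = P.ord f
    rw [Φ.symm_apply_apply]
  ext P
  obtain ⟨P, rfl⟩ := hsurj P
  rw [Finsupp.mapDomain_apply hinj, qdiv_apply, qdiv_apply]
  change _ = ((P.ord (Φ (Φ.symm t)) : ℤ) : ℚ)
  rw [Φ.apply_symm_apply]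

/-- the action on the divisor class group -/
noncomputable def twP (σ : k ≃+* k) (Φ : K ≃+* K)
    (hΦ : ∀ c : k, Φ (algebraMap k K c) = algebraMap k K (σ c)) : PicQ k K →ₗ[ℚ] PicQ k K :=
  (rat1 k K).mapQ (rat1 k K) (Finsupp.lmapDomain ℚ ℚ (tw σ Φ hΦ)) (by
    refine (rat1_le K).trans ?_
    rw [Submodule.span_le]
    rintro _ ⟨t, ht, rfl⟩
    change (qdiv (k := k) t).mapDomain (tw σ Φ hΦ) ∈ rat1 k K
    rw [tw_div]
    exact qdiv_mem (by simpa using ht))

lemma twP_pt (σ : k ≃+* k) (Φ : K ≃+* K)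
    (hΦ : ∀ c : k, Φ (algebraMap k K c) = algebraMap k K (σ c)) (P : Place k K) :
    twP σ Φ hΦ (pt P) = pt (tw σ Φ hΦ P) := by
  unfold pt
  change mkP ((Finsupp.single P (1 : ℚ)).mapDomain (tw σ Φ hΦ)) = _
  rw [Finsupp.mapDomain_single]

lemma twP_dif (σ : k ≃+* k) (Φ : K ≃+* K)
    (hΦ : ∀ c : k, Φ (algebraMap k K c) = algebraMap k K (σ c)) (O P : Place k K) :
    twP σ Φ hΦ (dif O P) = dif (tw σ Φ hΦ O) (tw σ Φ hΦ P) := by
  unfold dif
  rw [map_sub, twP_pt, twP_pt]

end

end Pool.Agent.H834.E
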