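import Pool.Agent.H834.E.Gen

/-!
# The class group of the elliptic curve
-/

set_option autoImplicit false
set_option linter.unusedSectionVars false
set_option linter.unusedVariables false

namespace Pool.Agent.H834.E

open FF Polynomial Module Pool.Agent.Q70.CH Pool.Agent.Q70.KM

section

variable (k : Type) [Field k] [CharZero k] (K : Type) [Field K] [Algebra k K] [IsFF k K]

/-- the group of principal divisors -/
noncomputable def prin : AddSubgroup (Place k K →₀ ℤ) where
  carrier := {D | ∃ t : K, t ≠ 0 ∧ D = divisor k t}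
  zero_mem' := ⟨1, one_ne_zero, by
    ext P
    rw [divisor_apply, P.ord_one]
    rfl⟩
  add_mem' := by
    rintro _ _ ⟨t, ht, rfl⟩ ⟨u, hu, rfl⟩
    exact ⟨t * u, mul_ne_zero ht hu, (divisor_mul ht hu).symm⟩
  neg_mem' := by
    rintro _ ⟨t, ht, rfl⟩
    exact ⟨t⁻¹, inv_ne_zero ht, (divisor_inv t).symm⟩

/-- the divisor class group -/
abbrev ClZ : Type := (Place k K →₀ ℤ) ⧸ prin k K

end

section

variable {k : Type} [Field k] [CharZero k] {K : Type} [Field K] [Algebra k K] [IsFF k K]

/-- the class of a divisor -/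
noncomputable def cz : (Place k K →₀ ℤ) →+ ClZ k K := QuotientAddGroup.mk' (prin k K)

lemma cz_eq_zero {D : Place k K →₀ ℤ} : cz D = 0 ↔ ∃ t : K, t ≠ 0 ∧ D = divisor k t :=
  QuotientAddGroup.eq_zero_iff D

/-- the class of `P - O` -/
noncomputable def dz (O P : Place k K) : ClZ k K :=
  cz (Finsupp.single P 1) - cz (Finsupp.single O 1)

/-- divisors with rational coefficients -/
noncomputable def castF : (Place k K →₀ ℤ) →+ (Place k K →₀ ℚ) :=
  Finsupp.mapRange.addMonoidHom (Int.castAddHom ℚ)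

lemma castF_single (P : Place k K) (n : ℤ) :
    castF (Finsupp.single P n) = Finsupp.single P (n : ℚ) := by
  simp [castF]

lemma castF_divisor (t : K) : castF (divisor k t) = qdiv (k := k) t := rfl

lemma castF_inj {D D' : Place k K →₀ ℤ} (h : castF D = castF D') : D = D' := by
  ext P
  have := congrArg (fun f : Place k K →₀ ℚ => f P) h
  exact_mod_cast (show ((D P : ℤ) : ℚ) = ((D' P : ℤ) : ℚ) from this)

/-- the map to the class group with rational coefficients -/
noncomputable def toQ : ClZ k K →+ PicQ k K :=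
  QuotientAddGroup.lift (prin k K) ((mkP (k := k) (K := K)).toAddMonoidHom.comp castF) (by
    rintro _ ⟨t, ht, rfl⟩
    exact (Submodule.Quotient.mk_eq_zero (rat1 k K)).2 (qdiv_mem ht))

lemma toQ_cz (D : Place k K →₀ ℤ) : toQ (cz D) = mkP (castF D) := rfl

lemma toQ_dz (O P : Place k K) : toQ (dz O P) = dif O P := by
  unfold dz dif pt
  rw [map_sub, toQ_cz, toQ_cz, castF_single, castF_single, Int.cast_one]

end

section

variable {k : Type} [Field k] [CharZero k] [IsAlgClosed k] {K : Type} [Field K] [Algebra k K]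
  [IsFF k K]

lemma qdiv_mul {t u : K} (ht : t ≠ 0) (hu : u ≠ 0) :
    qdiv (k := k) (t * u) = qdiv (k := k) t + qdiv (k := k) u := by
  rw [← castF_divisor, ← castF_divisor, ← castF_divisor, divisor_mul ht hu, map_add]

lemma qdiv_zpow (t : K) (n : ℤ) : qdiv (k := k) (t ^ n) = (n : ℚ) • qdiv (k := k) t := by
  ext P
  rw [qdiv_apply, P.ord_zpow, Finsupp.smul_apply, qdiv_apply, smul_eq_mul]
  push_cast
  rfl

lemma rat1_int {v : Place k K →₀ ℚ} (hv : v ∈ rat1 k K) :
    ∃ n : ℕ, 0 < n ∧ ∃ t : K, t ≠ 0 ∧ (n : ℚ) • v = qdiv (k := k) t := by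
  have h := rat1_le K hv
  induction h using Submodule.span_induction with
  | mem x hx =>
    obtain ⟨t, ht, rfl⟩ := hx
    exact ⟨1, one_pos, t, ht, by simp⟩
  | zero =>
    refine ⟨1, one_pos, 1, one_ne_zero, ?_⟩
    rw [smul_zero, ← castF_divisor]
    have : divisor k (1 : K) = 0 := by
      ext P
      rw [divisor_apply, P.ord_one]
      rfl
    rw [this, map_zero]
  | add v w hv' hw' ihv ihw =>
    obtain ⟨n, hn, t, ht, h1⟩ := ihv ((show Submodule.span ℚ _ ≤ rat1 k K from by
      rw [Submodule.span_le]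
      rintro _ ⟨t, ht, rfl⟩
      exact qdiv_mem ht) hv')
    obtain ⟨m, hm, u, hu, h2⟩ := ihw ((show Submodule.span ℚ _ ≤ rat1 k K from by
      rw [Submodule.span_le]
      rintro _ ⟨t, ht, rfl⟩
      exact qdiv_mem ht) hw')
    refine ⟨n * m, Nat.mul_pos hn hm, t ^ (m : ℤ) * u ^ (n : ℤ),
      mul_ne_zero (zpow_ne_zero _ ht) (zpow_ne_zero _ hu), ?_⟩
    rw [qdiv_mul (zpow_ne_zero _ ht) (zpow_ne_zero _ hu), qdiv_zpow, qdiv_zpow, ← h1, ← h2,
      smul_smul, smul_smul, smul_add]
    push_cast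
    rw [mul_comm (m : ℚ) n]
  | smul c v hv' ih =>
    obtain ⟨n, hn, t, ht, h1⟩ := ih ((show Submodule.span ℚ _ ≤ rat1 k K from by
      rw [Submodule.span_le]
      rintro _ ⟨t, ht, rfl⟩
      exact qdiv_mem ht) hv')
    refine ⟨n * c.den, Nat.mul_pos hn c.pos, t ^ c.num, zpow_ne_zero _ ht, ?_⟩
    rw [qdiv_zpow, ← h1, smul_smul, smul_smul]
    congr 1
    push_cast
    have : (c.den : ℚ) * c = c.num := Rat.den_mul_eq_num c
    rw [← this]
    ring

/-- The kernel of `Pic(C) → Pic(C) ⊗ ℚ` is torsion. -/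
theorem torsion_of_toQ {z : ClZ k K} (hz : toQ z = 0) : IsOfFinAddOrder z := by
  obtain ⟨D, rfl⟩ := QuotientAddGroup.mk'_surjective (prin k K) z
  have h1 : castF D ∈ rat1 k K := (Submodule.Quotient.mk_eq_zero (rat1 k K)).1 hz
  obtain ⟨n, hn, t, ht, h2⟩ := rat1_int h1
  rw [isOfFinAddOrder_iff_nsmul_eq_zero]
  refine ⟨n, hn, ?_⟩
  have h3 : n • D = divisor k t := by
    apply castF_inj
    rw [castF_divisor, ← h2, map_nsmul, Nat.cast_smul_eq_nsmul ℚ]
  change n • cz D = 0
  rw [← map_nsmul, h3]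
  exact cz_eq_zero.2 ⟨t, ht, rfl⟩

namespace Ell

variable {l : k} {x y : K} {σ : K ≃ₐ[k] K} {O : Place k K}

lemma dz_O (O : Place k K) : dz O O = 0 := sub_self _

lemma dz_neg (E : Ell l x y σ O) (P : Place k K) : dz O P + dz O (P.comp σ) = 0 := by
  rcases E.cases P with rfl | ⟨a, b, ha, hb, -⟩
  · rw [E.comp_O, dz_O, add_zero]
  · have h1 : cz (divisor k (x - algebraMap k K a)) = 0 :=
      cz_eq_zero.2 ⟨_, E.h.xa_ne a, rfl⟩
    rw [E.div_x ha hb, map_sub, map_add] at h1
    have h2 : (Finsupp.single O 2 : Place k K →₀ ℤ) = Finsupp.single O 1 + Finsupp.single O 1 := by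
      rw [← Finsupp.single_add]; rfl
    rw [h2, map_add] at h1
    unfold dz
    rw [← h1]
    abel

lemma dz_line (E : Ell l x y σ O) {s c a₁ a₂ a₃ : k}
    (e1 : 1 + l + s ^ 2 = a₁ + a₂ + a₃) (e2 : l - 2 * s * c = a₁ * a₂ + a₁ * a₃ + a₂ * a₃)
    (e3 : c ^ 2 = a₁ * a₂ * a₃) {P₁ P₂ P₃ : Place k K} (h₁ : At P₁ x a₁)
    (h₁' : At P₁ y (s * a₁ + c)) (h₂ : At P₂ x a₂) (h₂' : At P₂ y (s * a₂ + c)) (h₃ : At P₃ x a₃)
    (h₃' : At P₃ y (s * a₃ + c)) : dz O P₁ + dz O P₂ + dz O P₃ = 0 := by
  obtain ⟨u, hu, h⟩ := E.div_line e1 e2 e3 h₁ h₁' h₂ h₂' h₃ h₃'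
  have h1 : cz (divisor k u) = 0 := cz_eq_zero.2 ⟨_, hu, rfl⟩
  have h2 : (Finsupp.single O 3 : Place k K →₀ ℤ) =
      Finsupp.single O 1 + Finsupp.single O 1 + Finsupp.single O 1 := by
    rw [← Finsupp.single_add, ← Finsupp.single_add]; rfl
  rw [h, map_sub, map_add, map_add, h2, map_add, map_add] at h1
  unfold dz
  rw [← h1]
  abel

/-- the third point on a line, given two roots -/
lemma third (E : Ell l x y σ O) {s c a₁ a₂ : k} {P₁ P₂ : Place k K} (h₁ : At P₁ x a₁)
    (h₁' : At P₁ y (s * a₁ + c)) (h₂ : At P₂ x a₂) (h₂' : At P₂ y (s * a₂ + c))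
    (e2 : l - 2 * s * c = a₁ * a₂ + (a₁ + a₂) * (1 + l + s ^ 2 - a₁ - a₂))
    (e3 : c ^ 2 = a₁ * a₂ * (1 + l + s ^ 2 - a₁ - a₂)) :
    ∃ R : Place k K, At R x (1 + l + s ^ 2 - a₁ - a₂) ∧
      At R y (-(s * (1 + l + s ^ 2 - a₁ - a₂) + c)) ∧ dz O P₁ + dz O P₂ = dz O R := by
  set a₃ := 1 + l + s ^ 2 - a₁ - a₂ with ha₃
  have h0 : (s * a₃ + c) ^ 2 = a₃ * (a₃ - 1) * (a₃ - l) := by
    have e1 : 1 + l + s ^ 2 = a₁ + a₂ + a₃ := by rw [ha₃]; ring
    have e2' : l - 2 * s * c = a₁ * a₂ + (a₁ + a₂) * a₃ := e2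
    linear_combination a₃ ^ 2 * e1 - a₃ * e2' + e3
  obtain ⟨P₃, h₃, h₃'⟩ := E.exists_pt h0
  refine ⟨P₃.comp σ, E.comp_x h₃, E.comp_y h₃', ?_⟩
  have h1 := E.dz_line (a₁ := a₁) (a₂ := a₂) (a₃ := a₃) (by rw [ha₃]; ring)
    (by rw [e2]; ring) e3 h₁ h₁' h₂ h₂' h₃ h₃'
  have h2 := E.dz_neg P₃
  rw [add_comm] at h2
  rw [eq_neg_of_add_eq_zero_left h1, eq_neg_of_add_eq_zero_left h2]

/-- doubling -/
theorem dbl (E : Ell l x y σ O) {P : Place k K} {a b : k} (ha : At P x a) (hb : At P y b)
    (hb0 : b ≠ 0) :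
    ∃ (s : k) (R : Place k K), s = (3 * a ^ 2 - 2 * (1 + l) * a + l) / (2 * b) ∧
      At R x (1 + l + s ^ 2 - a - a) ∧
      At R y (-(s * (1 + l + s ^ 2 - a - a) + (b - s * a))) ∧ dz O P + dz O P = dz O R := by
  set s := (3 * a ^ 2 - 2 * (1 + l) * a + l) / (2 * b) with hs
  have h2b : (2 : k) * b ≠ 0 := mul_ne_zero two_ne_zero hb0
  have h1 : 2 * b * s = 3 * a ^ 2 - 2 * (1 + l) * a + l := by
    rw [hs]
    field_simp
  have h2 := E.b_sq ha hb
  have hb' : At P y (s * a + (b - s * a)) := by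
    have : s * a + (b - s * a) = b := by ring
    rw [this]
    exact hb
  obtain ⟨R, hR, hR', h⟩ := E.third (s := s) (c := b - s * a) ha hb' ha hb'
    (by linear_combination -h1) (by linear_combination h2 - a * h1)
  exact ⟨s, R, rfl, hR, hR', h⟩

/-- the group law -/
theorem add (E : Ell l x y σ O) (P Q : Place k K) : ∃ R : Place k K, dz O P + dz O Q = dz O R := by
  rcases E.cases P with rfl | ⟨a, b, ha, hb, hab⟩
  · exact ⟨Q, by rw [dz_O, zero_add]⟩
  rcases E.cases Q with rfl | ⟨a', b', ha', hb', hab'⟩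
  · exact ⟨P, by rw [dz_O, add_zero]⟩
  by_cases haa : a = a'
  · subst haa
    rw [← hab] at hab'
    rcases sq_eq_sq_iff_eq_or_eq_neg.1 hab' with h | h
    · subst h
      by_cases hb0 : b' = 0
      · have h1 : Q = P.comp σ := E.ext ha' hb' (E.comp_x ha) (by
          have := E.comp_y hb
          rwa [hb0, neg_zero, ← hb0] at this)
        rw [h1]
        exact ⟨O, by rw [E.dz_neg, dz_O]⟩
      · have h1 : Q = P := E.ext ha' hb' ha hb
        rw [h1]
        obtain ⟨s, R, -, -, -, h⟩ := E.dbl ha hb hb0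
        exact ⟨R, h⟩
    · have h1 : Q = P.comp σ := E.ext ha' hb' (E.comp_x ha) (by
        rw [h]
        exact E.comp_y hb)
      rw [h1]
      exact ⟨O, by rw [E.dz_neg, dz_O]⟩
  · set s := (b' - b) / (a' - a) with hs
    have hne : a' - a ≠ 0 := sub_ne_zero.2 (Ne.symm haa)
    have h1 : s * (a' - a) = b' - b := by
      rw [hs]
      field_simp
    set c := b - s * a with hc
    have e1 : b = s * a + c := by rw [hc]; ring
    have e1' : b' = s * a' + c := by rw [hc]; linear_combination -h1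
    rw [e1] at hab hb
    rw [e1'] at hab' hb'
    -- the two equations
    set α := l - 2 * s * c - a * a' - (a + a') * (1 + l + s ^ 2 - a - a') with hα
    set β := -c ^ 2 + a * a' * (1 + l + s ^ 2 - a - a') with hβ
    have g1 : α * a + β = 0 := by rw [hα, hβ]; linear_combination -hab
    have g2 : α * a' + β = 0 := by rw [hα, hβ]; linear_combination -hab'
    have g3 : α = 0 := by
      have : α * (a' - a) = 0 := by linear_combination g2 - g1
      exact (mul_eq_zero.1 this).resolve_right hne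
    have g4 : β = 0 := by rw [g3] at g1; linear_combination g1
    obtain ⟨R, -, -, h⟩ := E.third (s := s) (c := c) ha hb ha' hb'
      (by linear_combination g3) (by linear_combination -g4)
    exact ⟨R, h⟩

lemma nsmul (E : Ell l x y σ O) (n : ℕ) (P : Place k K) :
    ∃ R : Place k K, n • dz O P = dz O R := by
  induction n with
  | zero => exact ⟨O, by rw [zero_nsmul, dz_O]⟩
  | succ n ih =>
    obtain ⟨R, hR⟩ := ih
    rw [succ_nsmul, hR]
    exact E.add R P

lemma zsmul (E : Ell l x y σ O) (n : ℤ) (P : Place k K) :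
    ∃ R : Place k K, n • dz O P = dz O R := by
  cases n with
  | ofNat n =>
    obtain ⟨R, hR⟩ := E.nsmul n P
    exact ⟨R, by rw [← hR]; exact natCast_zsmul _ n⟩
  | negSucc n =>
    obtain ⟨R, hR⟩ := E.nsmul (n + 1) P
    refine ⟨R.comp σ, ?_⟩
    have h := E.dz_neg R
    rw [add_comm] at h
    rw [negSucc_zsmul, hR, eq_neg_of_add_eq_zero_left h]

/-- Points with the same class are equal. -/
theorem inj (E : Ell l x y σ O) {P P' : Place k K} (h : dz O P = dz O P') : P = P' := by
  classical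
  -- `P + σ P' ~ 2 O`
  have h1 : dz O P + dz O (P'.comp σ) = 0 := by rw [h]; exact E.dz_neg P'
  have h2 : cz (Finsupp.single P 1 + Finsupp.single (P'.comp σ) 1 - Finsupp.single O 2 :
      Place k K →₀ ℤ) = 0 := by
    have h2 : (Finsupp.single O 2 : Place k K →₀ ℤ) = Finsupp.single O 1 + Finsupp.single O 1 := by
      rw [← Finsupp.single_add]; rfl
    rw [← h1, h2, map_sub, map_add, map_add]
    unfold dz
    abel
  obtain ⟨u, hu, h3⟩ := cz_eq_zero.1 h2
  have hord : ∀ Q : Place k K, Q.ord u = (if P = Q then 1 else 0) +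
      (if P'.comp σ = Q then 1 else 0) - (if O = Q then 2 else 0) := by
    intro Q
    rw [← divisor_apply, ← h3, Finsupp.sub_apply, Finsupp.add_apply, Finsupp.single_apply,
      Finsupp.single_apply, Finsupp.single_apply]
  obtain ⟨a, b, hab⟩ := E.two_O (u := u) (by
    intro Q hQ
    right
    rw [hord, if_neg (Ne.symm hQ)]
    split_ifs <;> norm_num) (by
    rw [hord, if_pos rfl]
    split_ifs <;> norm_num)
  have hcomp2 : ∀ Q : Place k K, (Q.comp σ).comp σ = Q := by
    intro Q
    rcases E.cases Q with rfl | ⟨c, d, hc, hd, -⟩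
    · rw [E.comp_O, E.comp_O]
    · have h4 := E.comp_y (E.comp_y hd)
      rw [neg_neg] at h4
      exact E.ext (E.comp_x (E.comp_x hc)) h4 hc hd
  by_cases ha : a = 0
  · -- `u` is constant
    rw [ha, map_zero, zero_mul, zero_add] at hab
    have hb : b ≠ 0 := by
      rintro rfl
      rw [map_zero] at hab
      exact hu hab
    have h4 : ∀ Q : Place k K, Q.ord u = 0 := fun Q => by rw [hab, Q.ord_const hb]
    have h5 : P = O := by
      by_contra hne
      have := hord P
      rw [h4, if_pos rfl, if_neg (Ne.symm hne)] at this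
      split_ifs at this <;> omega
    have h6 : P'.comp σ = O := by
      by_contra hne
      have := hord (P'.comp σ)
      rw [h4, if_pos rfl, if_neg (Ne.symm hne)] at this
      split_ifs at this <;> omega
    have h7 : P' = O := by rw [← hcomp2 P', h6, E.comp_O]
    rw [h5, h7]
  · -- `u = a (x - c)`
    set c := -b / a with hc
    have h4 : u = algebraMap k K a * (x - algebraMap k K c) := by
      have h5 : algebraMap k K a * algebraMap k K c = - algebraMap k K b := by
        rw [← map_mul, ← map_neg]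
        congr 1
        rw [hc]
        field_simp
      rw [hab]
      linear_combination h5
    obtain ⟨d, hd⟩ : ∃ d : k, d ^ 2 = c * (c - 1) * (c - l) :=
      IsAlgClosed.exists_pow_nat_eq (c * (c - 1) * (c - l)) (n := 2) (by norm_num)
    obtain ⟨R, hRx, hRy⟩ := E.exists_pt hd
    have h5 : ∀ Q : Place k K, Q.ord u = (if R = Q then 1 else 0) +
        (if R.comp σ = Q then 1 else 0) - (if O = Q then 2 else 0) := by
      intro Q
      have ha' : algebraMap k K a ≠ 0 := by simpa using ha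
      rw [h4, Q.ord_mul ha' (E.h.xa_ne c), Q.ord_const ha, zero_add, ← divisor_apply,
        E.div_x hRx hRy, Finsupp.sub_apply, Finsupp.add_apply, Finsupp.single_apply,
        Finsupp.single_apply, Finsupp.single_apply]
    have h6 : ∀ Q : Place k K, ((if P = Q then 1 else 0) + (if P'.comp σ = Q then 1 else 0) : ℤ) =
        (if R = Q then 1 else 0) + (if R.comp σ = Q then 1 else 0) := by
      intro Q
      have := hord Q
      rw [h5 Q] at this
      linarith
    have h7 : R = P ∨ R.comp σ = P := by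
      by_contra hcon
      push Not at hcon
      have := h6 P
      rw [if_pos rfl, if_neg hcon.1, if_neg hcon.2] at this
      split_ifs at this <;> omega
    rcases h7 with h7 | h7
    · subst h7
      have h8 := h6 (R.comp σ)
      rw [if_pos rfl] at h8
      have h9 : P'.comp σ = R.comp σ := by
        by_contra hne
        rw [if_neg hne] at h8
        split_ifs at h8 <;> omega
      rw [← hcomp2 R, ← h9, hcomp2]
    · subst h7
      have h8 := h6 R
      rw [if_pos rfl] at h8
      have h9 : P'.comp σ = R := by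
        by_contra hne
        rw [if_neg hne] at h8
        split_ifs at h8 <;> omega
      rw [← h9, hcomp2]

end Ell

end

end Pool.Agent.H834.E
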