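import Pool.Agent.H834.E.Times

/-!
# The curve of genus two covering both elliptic curves
-/

set_option autoImplicit false
set_option linter.unusedSectionVars false
set_option linter.unusedVariables false

namespace Pool.Agent.H834.E

open FF Polynomial Module Pool.Agent.Q70.CH Pool.Agent.Q70.KM

section

variable {k : Type} [Field k] [CharZero k]

/-- `c X² - d` -/
noncomputable def qd (c d : k) : k[X] := C c * X ^ 2 - C d

lemma qd_sep {c d : k} (hd : d ≠ 0) : (qd c d).Separable := by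
  rw [separable_def]
  refine ⟨-C d⁻¹, C (2 * d)⁻¹ * X, ?_⟩
  have h1 : derivative (qd c d) = C (2 * c) * X := by
    have h2 : (C (2 * c) : k[X]) = 2 * C c := by rw [map_mul, map_ofNat]
    unfold qd
    rw [h2]
    simp
    ring
  rw [h1]
  unfold qd
  have h2 : (C (2 * d)⁻¹ * X * (C (2 * c) * X) : k[X]) = C (c * d⁻¹) * X ^ 2 := by
    have h3 : c * d⁻¹ = (2 * d)⁻¹ * (2 * c) := by field_simp
    have h4 : (C (c * d⁻¹) : k[X]) = C (2 * d)⁻¹ * C (2 * c) := by rw [h3, C_mul]
    rw [h4]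
    generalize (C (2 * d)⁻¹ : k[X]) = u
    generalize (C (2 * c) : k[X]) = v
    ring
  have h3 : (C d⁻¹ * C d : k[X]) = 1 := by rw [← map_mul, inv_mul_cancel₀ hd, map_one]
  rw [h2, map_mul]
  linear_combination h3

lemma qd_coprime {c d c' d' : k} (h : c * d' - c' * d ≠ 0) : IsCoprime (qd c d) (qd c' d') := by
  set e := c * d' - c' * d with he
  refine ⟨C (c' * e⁻¹), -C (c * e⁻¹), ?_⟩
  have h3 : (C e⁻¹ * C e : k[X]) = 1 := by rw [← map_mul, inv_mul_cancel₀ h, map_one]
  unfold qd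
  have h4 : (C e : k[X]) = C c * C d' - C c' * C d := by rw [he]; simp
  rw [map_mul, map_mul, ← h3, h4]
  ring

lemma qd_natDegree {c : k} (hc : c ≠ 0) (d : k) : (qd c d).natDegree = 2 := by
  unfold qd
  rw [natDegree_sub_C, natDegree_C_mul_X_pow _ _ hc]

/-- the sextic -/
noncomputable def gg (l m : k) : k[X] := C (l - m) * (qd 1 1 * qd l m * qd (l - 1) (m - 1))

lemma gg_sep {l m : k} (l0 : l ≠ 0) (l1 : l ≠ 1) (m0 : m ≠ 0) (m1 : m ≠ 1) (hlm : l ≠ m) :
    (gg l m).Separable := by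
  have e : l - m ≠ 0 := sub_ne_zero.2 hlm
  unfold gg
  refine Separable.mul (separable_C _ |>.2 e.isUnit) ?_ ?_
  · refine ((qd_sep one_ne_zero).mul (qd_sep m0) (qd_coprime ?_)).mul
      (qd_sep (sub_ne_zero.2 m1)) ?_
    · intro h; apply e; linear_combination -h
    · refine IsCoprime.mul_left (qd_coprime ?_) (qd_coprime ?_)
      · intro h; apply e; linear_combination -h
      · intro h; apply e; linear_combination -h
  · exact ⟨C (l - m)⁻¹, 0, by rw [zero_mul, add_zero, ← map_mul, inv_mul_cancel₀ e, map_one]⟩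

lemma gg_natDegree {l m : k} (l0 : l ≠ 0) (l1 : l ≠ 1) (hlm : l ≠ m) :
    (gg l m).natDegree = 6 := by
  have h1 := qd_natDegree (one_ne_zero (α := k)) 1
  have h2 := qd_natDegree l0 m
  have h3 := qd_natDegree (sub_ne_zero.2 l1) (m - 1)
  have n1 : qd (1 : k) 1 ≠ 0 := by intro h; rw [h] at h1; simp at h1
  have n2 : qd l m ≠ 0 := by intro h; rw [h] at h2; simp at h2
  have n3 : qd (l - 1) (m - 1) ≠ 0 := by intro h; rw [h] at h3; simp at h3
  unfold gg
  rw [natDegree_C_mul (sub_ne_zero.2 hlm), natDegree_mul (mul_ne_zero n1 n2) n3,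
    natDegree_mul n1 n2, h1, h2, h3]

lemma gg_eval (l m t : k) : (gg l m).eval t =
    (l - m) * ((t ^ 2 - 1) * (l * t ^ 2 - m) * ((l - 1) * t ^ 2 - (m - 1))) := by
  simp [gg, qd]

end

section

variable {k : Type} [Field k] [CharZero k] [IsAlgClosed k]
  {K : Type} [Field K] [Algebra k K] [IsFF k K] {L : Type} [Field L] [Algebra k L] [IsFF k L]

lemma at_below {B : Type} [Field B] [Algebra k B] [IsFF k B] (φ : K →ₐ[k] B) {w : Place k B}
    {f : K} {c : k} (h : At w (φ f) c) : At (below φ w) f c := by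
  obtain ⟨e, he, h1⟩ := below_spec φ w
  rw [at_iff] at h ⊢
  rcases h with h | h
  · left
    refine (φ : K →+* B).injective ?_
    change φ f = φ (algebraMap k K c)
    rw [h, φ.commutes]
  · right
    have h2 : φ (f - algebraMap k K c) = φ f - algebraMap k B c := by rw [map_sub, φ.commutes]
    rw [← h2, h1] at h
    by_contra hb
    push Not at hb
    have h3 : (0 : ℤ) ≤ e := by omega
    have := mul_nonpos_of_nonneg_of_nonpos h3 hb
    omega

lemma rat3_of_curve {B : Type} [Field B] [Algebra k B] [IsFF k B] (φ : K →ₐ[k] B) (ψ : L →ₐ[k] B)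
    {u : B} (hu : u ≠ 0) :
    (qdiv (k := k) u).mapDomain (fun w => (below φ w, below ψ w)) ∈ rat3 k K L := by
  have h : (qdiv (k := k) u).mapDomain (fun w => ((below φ w, below ψ w) : Place k K × Place k L)) ∈
      ratTriv ((curve (k := k) K).prod (curve L)) := by
    unfold ratTriv
    exact Submodule.subset_span ⟨B, inferInstance, inferInstance, inferInstance,
      fun w => (below φ w, below ψ w), ⟨Or.inr ⟨φ, below_spec φ⟩, Or.inr ⟨ψ, below_spec ψ⟩⟩,
      u, hu, rfl⟩
  exact h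

/-- The basic relation. -/
theorem basic {l m : k} {x y : K} {σ : K ≃ₐ[k] K} {O : Place k K} (E : Ell l x y σ O)
    {x' y' : L} {σ' : L ≃ₐ[k] L} {O' : Place k L} (E' : Ell m x' y' σ' O') (hlm : l ≠ m)
    {P : Place k K} {Q : Place k L} {a b b' : k} (ha : At P x a) (hb : At P y b) (ha' : At Q x' a)
    (hb' : At Q y' b') (hb0 : b ≠ 0) :
    (Finsupp.single (P, Q) 1 + Finsupp.single (P.comp σ, Q.comp σ') 1 -
      Finsupp.single (O, O') 2 : Place k K × Place k L →₀ ℚ) ∈ rat3 k K L := by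
  classical
  have e : l - m ≠ 0 := sub_ne_zero.2 hlm
  have hsep := gg_sep E.l0 E.l1 E'.l0 E'.l1 hlm
  have hdeg : 0 < (gg l m).natDegree := by rw [gg_natDegree E.l0 E.l1 hlm]; norm_num
  obtain ⟨B, _, _, t, z, D⟩ := exists_dbl hsep hdeg
  have : IsFF k B := D.isFF
  obtain ⟨τ, hτt, hτz⟩ := D.exists_inv hsep hdeg
  set A := algebraMap k B with hA
  have hA2 : A l - A m ≠ 0 := by
    rw [← map_sub]
    intro h
    exact e (A.injective (h.trans (map_zero A).symm))
  -- the equation
  have hz : z ^ 2 = (A l - A m) * ((t ^ 2 - 1) * (A l * t ^ 2 - A m) *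
      ((A l - 1) * t ^ 2 - (A m - 1))) := by
    have h1 := D.eq
    rw [h1]
    unfold gg qd
    simp only [map_mul, map_sub, map_pow, aeval_X, aeval_C, map_one, ← hA, one_mul]
  have ht1 : t ^ 2 - 1 ≠ 0 := by
    intro h
    apply D.xa_ne 1
    by_contra hne
    have h2 : t + 1 = 0 := by
      have : (t - A 1) * (t + 1) = 0 := by rw [map_one]; linear_combination h
      exact (mul_eq_zero.1 this).resolve_left hne
    apply D.xa_ne (-1)
    rw [map_neg, map_one]
    linear_combination h2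
  -- the functions
  set X' := (A l * t ^ 2 - A m) / (t ^ 2 - 1) with hX'
  set Y₁ := z / (t ^ 2 - 1) ^ 2 with hY₁
  set Y₂ := t * z / (t ^ 2 - 1) ^ 2 with hY₂
  have hY1 : Y₁ ^ 2 = X' * (X' - 1) * (X' - A l) := by
    rw [hX', hY₁, div_pow, hz]
    field_simp
    ring
  have hY2 : Y₂ ^ 2 = X' * (X' - 1) * (X' - A m) := by
    rw [hX', hY₂, div_pow, mul_pow, hz]
    field_simp
    ring
  -- the place over `t = 1`
  obtain ⟨R₁, hR₁t, hR₁z⟩ := D.exists_at hsep hdeg (a := 1) (b := 0) (by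
    rw [gg_eval]; ring)
  have hR₁t2 : At R₁ (t ^ 2 - 1) 0 := by
    have h1 := (hR₁t.pow 2).sub (at_const R₁ 1)
    rw [map_one, one_pow, sub_self] at h1
    exact h1
  have hpole : R₁.ord X' < 0 := by
    have h1 : At R₁ (A l * t ^ 2 - A m) (l - m) := by
      have h2 := ((at_const R₁ l).mul (hR₁t.pow 2)).sub (at_const R₁ m)
      rw [one_pow, mul_one] at h2
      exact h2
    have h3 := h1.ne_zero e
    rw [hX', R₁.ord_div h3 ht1, h1.ord_eq_zero e]
    have h4 := (at_zero_iff.1 hR₁t2).resolve_left ht1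
    omega
  have htrX : Transcendental k X' := R₁.transcendental_of_ord_ne (by omega)
  -- the embeddings
  have hXinj : Function.Injective (eval₂RingHom A X') := transcendental_iff_injective.1 htrX
  obtain ⟨Φ, h1, h2, h3⟩ := E.h.lift E.sep E.deg A X' Y₁ hXinj (by
    rw [hY1]
    unfold lg
    simp)
  obtain ⟨Ψ, h1', h2', h3'⟩ := E'.h.lift E'.sep E'.deg A X' Y₂ hXinj (by
    rw [hY2]
    unfold lg
    simp)
  let φ : K →ₐ[k] B := { Φ with commutes' := h1 }
  let ψ : L →ₐ[k] B := { Ψ with commutes' := h1' }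
  have hφx : φ x = X' := h2
  have hφy : φ y = Y₁ := h3
  have hψx : ψ x' = X' := h2'
  have hψy : ψ y' = Y₂ := h3'
  -- the place over `(P, Q)`
  have hbl := E.b_sq ha hb
  have hbm := E'.b_sq ha' hb'
  have hal : a - l ≠ 0 := by
    intro h
    rw [h, mul_zero] at hbl
    exact hb0 (pow_eq_zero_iff two_ne_zero |>.1 hbl)
  have haa : a * (a - 1) ≠ 0 := by
    intro h
    rw [h, zero_mul] at hbl
    exact hb0 (pow_eq_zero_iff two_ne_zero |>.1 hbl)
  set t₀ := b' / b with ht₀
  have ht0b : t₀ * b = b' := div_mul_cancel₀ _ hb0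
  have ht₀2 : t₀ ^ 2 * (a - l) = a - m := by
    have h4 : t₀ ^ 2 * b ^ 2 = b' ^ 2 := by rw [← ht0b]; ring
    rw [hbl, hbm] at h4
    apply mul_left_cancel₀ haa
    linear_combination h4
  have ht₀1 : (t₀ ^ 2 - 1) * (a - l) = l - m := by linear_combination ht₀2
  have ht₀ne : t₀ ^ 2 - 1 ≠ 0 := by
    intro h
    rw [h, zero_mul] at ht₀1
    exact e ht₀1.symm
  have hta : l * t₀ ^ 2 - m = a * (t₀ ^ 2 - 1) := by
    linear_combination -ht₀2
  set z₀ := b * (t₀ ^ 2 - 1) ^ 2 with hz₀
  have hz₀0 : z₀ ≠ 0 := mul_ne_zero hb0 (pow_ne_zero 2 ht₀ne)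
  have hz₀e : z₀ ^ 2 = (gg l m).eval t₀ := by
    have e3 : (l - 1) * t₀ ^ 2 - (m - 1) = (a - 1) * (t₀ ^ 2 - 1) := by
      linear_combination hta
    rw [gg_eval, e3, hta, ← ht₀1, hz₀, mul_pow, hbl]
    ring
  obtain ⟨R, hRt, hRz⟩ := D.exists_at hsep hdeg hz₀e
  have hval : ∀ (w : Place k B) (c : k), At w t t₀ → At w z (c * (t₀ ^ 2 - 1) ^ 2) →
      At w X' a ∧ At w Y₁ c ∧ At w Y₂ (t₀ * c) := by
    intro w c hwt hwz
    have h4 : At w (t ^ 2 - 1) (t₀ ^ 2 - 1) := by
      have h5 := (hwt.pow 2).sub (at_const w 1)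
      rwa [map_one] at h5
    have h5 := (((at_const w l).mul (hwt.pow 2)).sub (at_const w m)).div h4 ht₀ne
    have h6 := hwz.div (h4.pow 2) (pow_ne_zero 2 ht₀ne)
    have h7 := (hwt.mul hwz).div (h4.pow 2) (pow_ne_zero 2 ht₀ne)
    have e5 : (l * t₀ ^ 2 - m) / (t₀ ^ 2 - 1) = a := by
      rw [hta]
      field_simp
    have e6 : c * (t₀ ^ 2 - 1) ^ 2 / (t₀ ^ 2 - 1) ^ 2 = c := by field_simp
    have e7 : t₀ * (c * (t₀ ^ 2 - 1) ^ 2) / (t₀ ^ 2 - 1) ^ 2 = t₀ * c := by field_simp
    rw [e5] at h5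
    rw [e6] at h6
    rw [e7] at h7
    exact ⟨h5, h6, h7⟩
  have hR'z : At (R.comp τ) z (-b * (t₀ ^ 2 - 1) ^ 2) := by
    rw [at_comp, hτz]
    have := hRz.neg
    have h4 : -z₀ = -b * (t₀ ^ 2 - 1) ^ 2 := by rw [hz₀]; ring
    rwa [h4] at this
  have hR't : At (R.comp τ) t t₀ := by rw [at_comp, hτt]; exact hRt
  obtain ⟨v1, v2, v3⟩ := hval R b hRt hRz
  obtain ⟨v1', v2', v3'⟩ := hval (R.comp τ) (-b) hR't hR'z
  rw [ht0b] at v3
  have ht0b' : t₀ * -b = -b' := by rw [← ht0b]; ring
  rw [ht0b'] at v3'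
  have hs1 : below φ R = P := E.ext (at_below φ (by rw [hφx]; exact v1))
    (at_below φ (by rw [hφy]; exact v2)) ha hb
  have hs2 : below ψ R = Q := E'.ext (at_below ψ (by rw [hψx]; exact v1))
    (at_below ψ (by rw [hψy]; exact v3)) ha' hb'
  have hs1' : below φ (R.comp τ) = P.comp σ := E.ext (at_below φ (by rw [hφx]; exact v1'))
    (at_below φ (by rw [hφy]; exact v2')) (E.comp_x ha) (E.comp_y hb)
  have hs2' : below ψ (R.comp τ) = Q.comp σ' := E'.ext (at_below ψ (by rw [hψx]; exact v1'))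
    (at_below ψ (by rw [hψy]; exact v3')) (E'.comp_x ha') (E'.comp_y hb')
  have hpb : ∀ {M : Type} [Field M] [Algebra k M] [IsFF k M] (χ : M →ₐ[k] B) (ξ : M) (V : Place k M)
      (hξ : ξ ≠ 0) (hr : ∀ W : Place k M, W ≠ V → W.Reg ξ) (hχ : χ ξ = X'), below χ R₁ = V := by
    intro M _ _ _ χ ξ V hξ hr hχ
    by_contra hne
    obtain ⟨n, hn, h4⟩ := below_spec χ R₁
    have h5 := ((below χ R₁).reg_iff hξ).1 (hr _ hne)
    have h6 := h4 ξ
    rw [hχ] at h6
    have h7 : (0 : ℤ) ≤ n * (below χ R₁).ord ξ := mul_nonneg (by omega) h5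
    omega
  have hs3 : below φ R₁ = O := hpb φ x O E.x_ne E.reg hφx
  have hs3' : below ψ R₁ = O' := hpb ψ x' O' E'.x_ne E'.reg hψx
  -- the function
  have hu1 := D.xa_ne t₀
  have hu2 := D.xa_ne 1
  have ht₀1' : t₀ ≠ 1 := by
    intro h
    rw [h] at ht₀ne
    exact ht₀ne (by ring)
  have hRR : R.comp τ ≠ R := by
    intro h
    rw [h] at hR'z
    have h4 := hRz.unique hR'z
    have h5 : (2 : k) * z₀ = 0 := by rw [hz₀]; rw [hz₀] at h4; linear_combination h4
    exact hz₀0 ((mul_eq_zero.1 h5).resolve_left two_ne_zero)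
  have hR1R : R₁ ≠ R := by
    rintro rfl
    exact ht₀1' (hRt.unique hR₁t)
  have hR1R' : R₁ ≠ R.comp τ := by
    intro h
    rw [← h] at hR't
    exact ht₀1' (hR't.unique hR₁t)
  have hdiv : qdiv (k := k) ((t - A t₀) / (t - A 1)) =
      Finsupp.single R 1 + Finsupp.single (R.comp τ) 1 - Finsupp.single R₁ 2 := by
    ext w
    rw [qdiv_apply, w.ord_div hu1 hu2, Finsupp.sub_apply, Finsupp.add_apply, Finsupp.single_apply,
      Finsupp.single_apply, Finsupp.single_apply]
    by_cases hw : w.Reg t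
    · obtain ⟨c, hc⟩ := exists_at hw
      have hgen : ∀ d : k, c ≠ d → w.ord (t - A d) = 0 := fun d hd =>
        (hc.sub (at_const w d)).ord_eq_zero (sub_ne_zero.2 hd)
      by_cases hc0 : c = t₀
      · rw [hc0] at hc
        have h4 := (D.over hsep hτt hτz hRt hRz w hc).1
        rw [hgen 1 (by rw [hc0]; exact ht₀1'), sub_zero]
        rcases h4 with h4 | h4
        · have h5 := (D.over hsep hτt hτz hRt hRz R hRt).2.2 hz₀0
          rw [h4, if_pos rfl, if_neg hRR, if_neg hR1R, h5]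
          norm_num
        · have h5 := (D.over hsep hτt hτz hR't hR'z R hRt).2.2 (by
            intro h6
            apply hz₀0
            rw [hz₀]
            linear_combination -h6)
          rw [h4, if_neg (Ne.symm hRR), if_pos rfl, if_neg hR1R', h5]
          norm_num
      · have hwR : R ≠ w := by
          rintro rfl
          exact hc0 (hc.unique hRt)
        have hwR' : R.comp τ ≠ w := by
          intro h
          rw [h] at hR't
          exact hc0 (hc.unique hR't)
        rw [hgen t₀ hc0, if_neg hwR, if_neg hwR']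
        by_cases hc1 : c = 1
        · rw [hc1] at hc
          have h4 := (D.over hsep hτt hτz hR₁t hR₁z w hc).1
          have h5 : w = R₁ := by
            rcases h4 with h4 | h4
            · exact h4
            · have h6 : At (R₁.comp τ) z 0 := by
                rw [at_comp, hτz]
                have := hR₁z.neg
                rwa [neg_zero] at this
              rw [h4]
              exact D.eq_of_at hsep hdeg hR₁t hR₁z (by rw [at_comp, hτt]; exact hR₁t) h6
          have h6 := (D.over hsep hτt hτz hR₁t hR₁z R₁ hR₁t).2.1 rfl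
          rw [h5, if_pos rfl, h6]
          norm_num
        · rw [hgen 1 hc1, if_neg]
          · norm_num
          · rintro rfl
            exact hc1 (hc.unique hR₁t)
    · have hneg : w.ord t < 0 := by
        unfold Place.Reg at hw
        push Not at hw
        exact hw.2
      rw [(ord_sub_const hneg t₀).2, (ord_sub_const hneg 1).2, sub_self, if_neg, if_neg, if_neg]
      · norm_num
      · rintro rfl; exact hw hR₁t.1
      · intro h; rw [h] at hR't; exact hw hR't.1
      · rintro rfl; exact hw hRt.1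
  have hmem := rat3_of_curve φ ψ (u := (t - A t₀) / (t - A 1)) (div_ne_zero hu1 hu2)
  rw [hdiv] at hmem
  have hmap : (Finsupp.single R 1 + Finsupp.single (R.comp τ) 1 - Finsupp.single R₁ 2 :
      Place k B →₀ ℚ).mapDomain (fun w => (below φ w, below ψ w)) =
      Finsupp.single (P, Q) 1 + Finsupp.single (P.comp σ, Q.comp σ') 1 -
        Finsupp.single (O, O') 2 := by
    change (Finsupp.lmapDomain ℚ ℚ (fun w => (below φ w, below ψ w))) _ = _
    simp only [map_sub, map_add, Finsupp.lmapDomain_apply, Finsupp.mapDomain_single]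
    rw [hs1, hs2, hs1', hs2', hs3, hs3']
  rw [hmap] at hmem
  exact hmem

end

end Pool.Agent.H834.E
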