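import Pool.Graph.R_pool_sql_team_seeded_2aa45f1a.Q70.KM.CMain
import Pool.Graph.R_seed8.Helper386.D5V.SF_Model

/-!
# Quadratic function fields `k(x, y)`, `y² = f(x)`
-/

set_option autoImplicit false

namespace Pool.Agent.H834.E

open FF Polynomial

/-- `K` is the function field `k(x, y)` of the curve `y² = f(x)`. -/
structure Dbl (k : Type) [Field k] {K : Type} [Field K] [Algebra k K] (f : k[X]) (x y : K) :
    Prop where
  tr : Transcendental k x
  eq : y ^ 2 = aeval x f
  gen : IntermediateField.adjoin k {x, y} = ⊤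

section

variable {k : Type} [Field k]

lemma not_sq {f : k[X]} (hf : f.Separable) (hd : 0 < f.natDegree) (b : RatFunc k) :
    b ^ 2 ≠ algebraMap k[X] (RatFunc k) f := by
  intro h
  have h1 : IsIntegral k[X] (b ^ 2) := by rw [h]; exact isIntegral_algebraMap
  have h2 : IsIntegral k[X] b := IsIntegral.of_pow (by norm_num) h1
  obtain ⟨p, rfl⟩ := IsIntegrallyClosed.isIntegral_iff.1 h2
  rw [← map_pow] at h
  have h3 : p ^ 2 = f := (FaithfulSMul.algebraMap_injective k[X] (RatFunc k)) h
  have h4 : IsUnit p := hf.squarefree p (by rw [← h3]; exact ⟨1, by ring⟩)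
  have h5 : p.natDegree = 0 := natDegree_eq_zero_of_isUnit h4
  rw [← h3, natDegree_pow, h5] at hd
  omega

/-- the defining polynomial over `k(X)` -/
noncomputable def mp (f : k[X]) : (RatFunc k)[X] := X ^ 2 - C (algebraMap k[X] (RatFunc k) f)

lemma mp_irr {f : k[X]} (hf : f.Separable) (hd : 0 < f.natDegree) : Irreducible (mp f) :=
  X_pow_sub_C_irreducible_of_prime Nat.prime_two (not_sq hf hd)

lemma model_map {f : k[X]} {B : Type} [Field B] (ψ : k →+* B) (x' y' : B)
    (hx : Function.Injective (eval₂RingHom ψ x')) (hy : y' ^ 2 = f.eval₂ ψ x') :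
    ∃ E : AdjoinRoot (mp f) →+* B, (∀ c : k, E (algebraMap k _ c) = ψ c) ∧
      E (AdjoinRoot.of _ (algebraMap k[X] (RatFunc k) X)) = x' ∧ E (AdjoinRoot.root _) = y' := by
  let e : RatFunc k →+* B := IsFractionRing.lift (A := k[X]) hx
  have he : ∀ p : k[X], e (algebraMap k[X] (RatFunc k) p) = p.eval₂ ψ x' := fun p =>
    IsFractionRing.lift_algebraMap hx p
  refine ⟨AdjoinRoot.lift e y' ?_, ?_, ?_, ?_⟩
  · unfold mp
    rw [eval₂_sub, eval₂_C, he, eval₂_X_pow, hy, sub_self]
  · intro c
    have : algebraMap k (AdjoinRoot (mp f)) c =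
        AdjoinRoot.of (mp f) (algebraMap k[X] (RatFunc k) (C c)) := by
      rw [IsScalarTower.algebraMap_apply k (RatFunc k) (AdjoinRoot (mp f)),
        IsScalarTower.algebraMap_apply k k[X] (RatFunc k)]
      rfl
    rw [this, AdjoinRoot.lift_of, he, eval₂_C]
  · rw [AdjoinRoot.lift_of, he, eval₂_X]
  · rw [AdjoinRoot.lift_root]

variable {K : Type} [Field K] [Algebra k K] {f : k[X]} {x y : K}

lemma Dbl.inj (h : Dbl k f x y) : Function.Injective (eval₂RingHom (algebraMap k K) x) := by
  have := transcendental_iff_injective.1 h.tr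
  exact this

/-- The universal property of `k(x, y)`. -/
theorem Dbl.lift (h : Dbl k f x y) (hf : f.Separable) (hd : 0 < f.natDegree) {B : Type} [Field B]
    (ψ : k →+* B) (x' y' : B)
    (hx : Function.Injective (eval₂RingHom ψ x')) (hy : y' ^ 2 = f.eval₂ ψ x') :
    ∃ Φ : K →+* B, (∀ c : k, Φ (algebraMap k K c) = ψ c) ∧ Φ x = x' ∧ Φ y = y' := by
  have : Fact (Irreducible (mp f)) := ⟨mp_irr hf hd⟩
  obtain ⟨E, h1, h2, h3⟩ := model_map (f := f) (algebraMap k K) x y h.inj h.eq
  obtain ⟨E', h1', h2', h3'⟩ := model_map (f := f) ψ x' y' hx hy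
  have hs : Function.Surjective E := by
    let R : IntermediateField k K := E.fieldRange.toIntermediateField (fun c => ⟨_, h1 c⟩)
    have hR : R = ⊤ := by
      rw [eq_top_iff, ← h.gen, IntermediateField.adjoin_le_iff]
      rintro z hz
      rcases hz with rfl | hz
      · exact ⟨_, h2⟩
      · rw [Set.mem_singleton_iff] at hz
        subst hz
        exact ⟨_, h3⟩
    intro z
    have hz : z ∈ R := by rw [hR]; trivial
    exact hz
  let e := RingEquiv.ofBijective E ⟨E.injective, hs⟩
  refine ⟨E'.comp (e.symm : K →+* AdjoinRoot (mp f)), fun c => ?_, ?_, ?_⟩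
  · change E' (e.symm _) = _
    rw [← h1', ← h1 c]
    congr 1
    exact e.symm_apply_apply _
  · change E' (e.symm _) = _
    rw [← h2', ← h2]
    congr 1
    exact e.symm_apply_apply _
  · change E' (e.symm _) = _
    rw [← h3', ← h3]
    congr 1
    exact e.symm_apply_apply _

/-- Two homomorphisms that agree on the constants and the generators are equal. -/
theorem Dbl.hom_ext (h : Dbl k f x y) {B : Type} [Field B] {Φ Ψ : K →+* B}
    (hc : ∀ c : k, Φ (algebraMap k K c) = Ψ (algebraMap k K c)) (hx : Φ x = Ψ x) (hy : Φ y = Ψ y) :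
    Φ = Ψ := by
  let R : IntermediateField k K := (Φ.eqLocusField Ψ).toIntermediateField (fun c => hc c)
  have hR : R = ⊤ := by
    rw [eq_top_iff, ← h.gen, IntermediateField.adjoin_le_iff]
    rintro z hz
    rcases hz with rfl | hz
    · exact hx
    · rw [Set.mem_singleton_iff] at hz
      subst hz
      exact hy
  ext z
  have hz : z ∈ R := by rw [hR]; trivial
  exact hz

/-- the function field exists -/
theorem exists_dbl {f : k[X]} (hf : f.Separable) (hd : 0 < f.natDegree) :
    ∃ (K : Type) (_ : Field K) (_ : Algebra k K) (x y : K), Dbl k f x y := by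
  have : Fact (Irreducible (mp f)) := ⟨mp_irr hf hd⟩
  have hcomp : ∀ c : k, algebraMap k (AdjoinRoot (mp f)) c =
      AdjoinRoot.of (mp f) (algebraMap k[X] (RatFunc k) (C c)) := by
    intro c
    rw [IsScalarTower.algebraMap_apply k (RatFunc k) (AdjoinRoot (mp f)),
      IsScalarTower.algebraMap_apply k k[X] (RatFunc k)]
    rfl
  have hev : ∀ p : k[X], aeval (AdjoinRoot.of (mp f) (algebraMap k[X] (RatFunc k) X)) p =
      AdjoinRoot.of (mp f) (algebraMap k[X] (RatFunc k) p) := by
    intro p
    have : ((aeval (AdjoinRoot.of (mp f) (algebraMap k[X] (RatFunc k) X))).toRingHom : k[X] →+* _) =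
        (AdjoinRoot.of (mp f)).comp (algebraMap k[X] (RatFunc k)) := by
      apply Polynomial.ringHom_ext
      · intro c
        change aeval _ (C c) = _
        rw [aeval_C, hcomp]
        rfl
      · change aeval _ X = _
        rw [aeval_X]
        rfl
    exact congrArg (fun g => g p) this
  refine ⟨AdjoinRoot (mp f), inferInstance, inferInstance,
    AdjoinRoot.of _ (algebraMap k[X] (RatFunc k) X), AdjoinRoot.root _, ?_, ?_, ?_⟩
  · rw [transcendental_iff_injective]
    intro p q hpq
    rw [hev, hev] at hpq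
    exact FaithfulSMul.algebraMap_injective k[X] (RatFunc k) ((AdjoinRoot.of (mp f)).injective hpq)
  · rw [hev]
    have h1 : (mp f).eval₂ (AdjoinRoot.of (mp f)) (AdjoinRoot.root (mp f)) = 0 :=
      AdjoinRoot.eval₂_root (mp f)
    have h2 : (mp f).eval₂ (AdjoinRoot.of (mp f)) (AdjoinRoot.root (mp f)) =
        AdjoinRoot.root (mp f) ^ 2 - AdjoinRoot.of (mp f) (algebraMap k[X] (RatFunc k) f) := by
      conv_lhs => unfold mp
      rw [eval₂_sub, eval₂_C, eval₂_X_pow]
      rfl
    rw [h2, sub_eq_zero] at h1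
    exact h1
  · rw [eq_top_iff]
    intro z _
    obtain ⟨p, rfl⟩ := AdjoinRoot.mk_surjective z
    set R := IntermediateField.adjoin k {AdjoinRoot.of (mp f) (algebraMap k[X] (RatFunc k) X),
      AdjoinRoot.root (mp f)} with hR
    have hroot : AdjoinRoot.root (mp f) ∈ R := IntermediateField.subset_adjoin _ _ (by simp)
    have hX : AdjoinRoot.of (mp f) (algebraMap k[X] (RatFunc k) X) ∈ R :=
      IntermediateField.subset_adjoin _ _ (by simp)
    have hp : ∀ q : k[X], AdjoinRoot.of (mp f) (algebraMap k[X] (RatFunc k) q) ∈ R := by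
      intro q
      rw [← hev]
      exact (IntermediateField.algebra_adjoin_le_adjoin k _) (Algebra.adjoin_mono
        (by simp) (aeval_mem_adjoin_singleton k _ : aeval
          (AdjoinRoot.of (mp f) (algebraMap k[X] (RatFunc k) X)) q ∈ _))
    have hr : ∀ r : RatFunc k, AdjoinRoot.of (mp f) r ∈ R := by
      intro r
      obtain ⟨a, b, -, rfl⟩ := IsFractionRing.div_surjective (A := k[X]) r
      rw [map_div₀]
      exact div_mem (hp a) (hp b)
    induction p using Polynomial.induction_on' with
    | add p q hp hq => rw [map_add]; exact add_mem (hp trivial) (hq trivial)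
    | monomial n r =>
      rw [← C_mul_X_pow_eq_monomial, map_mul, map_pow, AdjoinRoot.mk_X, AdjoinRoot.mk_C]
      exact mul_mem (hr r) (pow_mem hroot n)

end

end Pool.Agent.H834.E
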