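import Pool.Agent.H834.E.Curve
import Pool.Agent.H422.HE.Hyper

/-!
# The rational points of the curve of genus two
-/

set_option autoImplicit false

namespace Pool.Agent.H834.E

open Polynomial

theorem fal_finite (F : Type) [Field F] [NumberField F] {l m : F} (l0 : l ≠ 0) (l1 : l ≠ 1)
    (m0 : m ≠ 0) (m1 : m ≠ 1) (hlm : l ≠ m) :
    {a : F | (∃ b, b ^ 2 = a * (a - 1) * (a - l)) ∧ ∃ c, c ^ 2 = a * (a - 1) * (a - m)}.Finite := by
  have : CharZero F := NumberField.to_charZero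
  have h1 := Pool.Agent.H422.HE.hyper F (gg_sep l0 l1 m0 m1 hlm)
    (by rw [gg_natDegree l0 l1 hlm]; norm_num)
  have h2 : ({0, 1, l} ∪ (fun t : F => (l * t ^ 2 - m) / (t ^ 2 - 1)) ''
      {t : F | ∃ z : F, z ^ 2 = (gg l m).eval t}).Finite :=
    (Set.toFinite _).union (h1.image _)
  refine h2.subset ?_
  rintro a ⟨⟨b, hb⟩, c, hc⟩
  by_cases hb0 : b = 0
  · left
    rw [hb0] at hb
    have h3 : a * (a - 1) * (a - l) = 0 := by rw [← hb]; ring
    rcases mul_eq_zero.1 h3 with h3 | h3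
    · rcases mul_eq_zero.1 h3 with h3 | h3
      · simp [h3]
      · simp [sub_eq_zero.1 h3]
    · simp [sub_eq_zero.1 h3]
  · right
    have e : l - m ≠ 0 := sub_ne_zero.2 hlm
    have haa : a * (a - 1) ≠ 0 := by
      intro h
      rw [h, zero_mul] at hb
      exact hb0 (pow_eq_zero_iff two_ne_zero |>.1 hb)
    set t₀ := c / b with ht₀
    have ht0b : t₀ * b = c := div_mul_cancel₀ _ hb0
    have ht₀2 : t₀ ^ 2 * (a - l) = a - m := by
      have h4 : t₀ ^ 2 * b ^ 2 = c ^ 2 := by rw [← ht0b]; ring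
      rw [hb, hc] at h4
      apply mul_left_cancel₀ haa
      linear_combination h4
    have ht₀1 : (t₀ ^ 2 - 1) * (a - l) = l - m := by linear_combination ht₀2
    have ht₀ne : t₀ ^ 2 - 1 ≠ 0 := by
      intro h
      rw [h, zero_mul] at ht₀1
      exact e ht₀1.symm
    have hta : l * t₀ ^ 2 - m = a * (t₀ ^ 2 - 1) := by
      linear_combination -ht₀2
    refine ⟨t₀, ⟨b * (t₀ ^ 2 - 1) ^ 2, ?_⟩, ?_⟩
    · have e3 : (l - 1) * t₀ ^ 2 - (m - 1) = (a - 1) * (t₀ ^ 2 - 1) := by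
        linear_combination hta
      rw [gg_eval, e3, hta, ← ht₀1, mul_pow, hb]
      ring
    · change (l * t₀ ^ 2 - m) / (t₀ ^ 2 - 1) = a
      rw [hta]
      field_simp

end Pool.Agent.H834.E
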