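import Pool.Agent.H834.E.Main

/-!
# All elliptic curves
-/

set_option autoImplicit false
set_option linter.unusedSectionVars false
set_option linter.unusedVariables false

namespace Pool.Agent.H834.E

open FF Polynomial Module Pool.Agent.Q70.CH Pool.Agent.Q70.KM

section

variable {k : Type} [Field k] {K : Type} [Field K] [Algebra k K]

open IntermediateField in
/-- change of the generators -/
lemma gen_change {x y : K} (gen : IntermediateField.adjoin k {x, y} = ⊤) {a b c : k} (ha : a ≠ 0)
    (hc : c ≠ 0) : IntermediateField.adjoin k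
      {algebraMap k K a * x + algebraMap k K b, algebraMap k K c * y} = ⊤ := by
  have ha' : algebraMap k K a ≠ 0 := by simpa using ha
  have hc' : algebraMap k K c ≠ 0 := by simpa using hc
  rw [eq_top_iff, ← gen, IntermediateField.adjoin_le_iff]
  set R := IntermediateField.adjoin k
      {algebraMap k K a * x + algebraMap k K b, algebraMap k K c * y} with hR
  have h1 : algebraMap k K a * x + algebraMap k K b ∈ R :=
    IntermediateField.subset_adjoin _ _ (by simp)
  have h2 : algebraMap k K c * y ∈ R := IntermediateField.subset_adjoin _ _ (by simp)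
  have h3 : ∀ c : k, algebraMap k K c ∈ R := fun c => IntermediateField.algebraMap_mem R c
  rintro z hz
  rcases hz with rfl | hz
  · have h4 := div_mem (sub_mem h1 (h3 b)) (h3 a)
    have h5 : (algebraMap k K a * z + algebraMap k K b - algebraMap k K b) / algebraMap k K a = z := by
      field_simp
      ring
    rwa [h5] at h4
  · rw [Set.mem_singleton_iff] at hz
    subst hz
    have h4 := div_mem h2 (h3 c)
    have h5 : algebraMap k K c * z / algebraMap k K c = z := by field_simp
    rwa [h5] at h4

lemma tr_change {x : K} (tr : Transcendental k x) {a : k} (b : k) (ha : a ≠ 0) :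
    Transcendental k (algebraMap k K a * x + algebraMap k K b) := by
  intro h
  apply tr
  have ha' : algebraMap k K a ≠ 0 := by simpa using ha
  have h1 : IsAlgebraic k (algebraMap k K b) := isAlgebraic_algebraMap b
  have h2 : IsAlgebraic k ((algebraMap k K a)⁻¹) := (isAlgebraic_algebraMap a).inv
  have h3 := h2.mul (h.sub h1)
  have h4 : (algebraMap k K a)⁻¹ * (algebraMap k K a * x + algebraMap k K b - algebraMap k K b) =
      x := by
    field_simp
    ring
  rwa [h4] at h3

variable [IsAlgClosed k]

/-- the Legendre form -/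
theorem legendre {x y : K} (tr : Transcendental k x) (gen : IntermediateField.adjoin k {x, y} = ⊤)
    {c e₁ e₂ e₃ : k} (hc : c ≠ 0) (h12 : e₁ ≠ e₂) (h13 : e₁ ≠ e₃) (h23 : e₂ ≠ e₃)
    (eq : y ^ 2 = algebraMap k K c * (x - algebraMap k K e₁) * (x - algebraMap k K e₂) *
      (x - algebraMap k K e₃)) :
    ∃ (l : k) (x₁ y₁ : K), l ≠ 0 ∧ l ≠ 1 ∧ Dbl k (lg l) x₁ y₁ := by
  have h : e₂ - e₁ ≠ 0 := sub_ne_zero.2 (Ne.symm h12)
  obtain ⟨d, hd⟩ : ∃ d : k, d ^ 2 = (c * (e₂ - e₁) ^ 3)⁻¹ :=
    IsAlgClosed.exists_pow_nat_eq _ (n := 2) (by norm_num)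
  have hd0 : d ≠ 0 := by
    rintro rfl
    have : (c * (e₂ - e₁) ^ 3)⁻¹ ≠ 0 := inv_ne_zero (mul_ne_zero hc (pow_ne_zero 3 h))
    apply this
    rw [← hd]
    ring
  set u := (e₂ - e₁)⁻¹ with hu
  have hu0 : u ≠ 0 := inv_ne_zero h
  refine ⟨(e₃ - e₁) * u, algebraMap k K u * x + algebraMap k K (-e₁ * u), algebraMap k K d * y,
    mul_ne_zero (sub_ne_zero.2 (Ne.symm h13)) hu0, ?_, tr_change tr _ hu0, ?_,
    gen_change gen hu0 hd0⟩
  · intro h1
    apply h23
    have h2 : (e₃ - e₁) = e₂ - e₁ := by
      have h3 : (e₃ - e₁) * u * (e₂ - e₁) = e₂ - e₁ := by rw [h1, one_mul]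
      rw [mul_assoc, hu, inv_mul_cancel₀ h, mul_one] at h3
      exact h3
    linear_combination -h2
  · have h4 : d ^ 2 * c = u ^ 3 := by
      rw [hd, hu]
      field_simp
    have h5 : algebraMap k K d ^ 2 * algebraMap k K c = algebraMap k K u ^ 3 := by
      rw [← map_pow, ← map_mul, h4, map_pow]
    have h6 : algebraMap k K u * (algebraMap k K e₂ - algebraMap k K e₁) = 1 := by
      rw [← map_sub, ← map_mul, hu, inv_mul_cancel₀ h, map_one]
    unfold lg
    simp only [map_mul, map_sub, aeval_X, aeval_C, map_neg, map_one]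
    rw [mul_pow, eq]
    linear_combination ((x - algebraMap k K e₁) * (x - algebraMap k K e₂) *
      (x - algebraMap k K e₃)) * h5 - algebraMap k K u ^ 2 * (x - algebraMap k K e₁) *
      (x - algebraMap k K e₃) * h6

/-- another Legendre form -/
theorem legendre_ne [CharZero k] {m : k} (m0 : m ≠ 0) (m1 : m ≠ 1) {x y : K}
    (h : Dbl k (lg m) x y) (l : k) :
    ∃ (m' : k) (x₁ y₁ : K), m' ≠ l ∧ m' ≠ 0 ∧ m' ≠ 1 ∧ Dbl k (lg m') x₁ y₁ := by
  have heq := h.eq
  unfold lg at heq
  simp only [map_mul, map_sub, aeval_X, aeval_C, map_one] at heq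
  by_cases hml : m = l
  · by_cases h2 : 1 - m = l
    · -- `m = 1/2`, use `1/m = 2`
      obtain ⟨d, hd⟩ : ∃ d : k, d ^ 2 = (m ^ 3)⁻¹ :=
        IsAlgClosed.exists_pow_nat_eq _ (n := 2) (by norm_num)
      have hd0 : d ≠ 0 := by
        rintro rfl
        have : (m ^ 3)⁻¹ ≠ 0 := inv_ne_zero (pow_ne_zero 3 m0)
        apply this
        rw [← hd]
        ring
      refine ⟨m⁻¹, algebraMap k K m⁻¹ * x + algebraMap k K 0, algebraMap k K d * y, ?_,
        inv_ne_zero m0, ?_, tr_change h.tr _ (inv_ne_zero m0), ?_,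
        gen_change h.gen (inv_ne_zero m0) hd0⟩
      · intro h3
        have h4 : m * m = 1 := by
          have : m * m⁻¹ = 1 := mul_inv_cancel₀ m0
          rw [h3, ← hml] at this
          exact this
        have h5 : 2 * m = 1 := by linear_combination hml - h2
        have h6 : (4 : k) * (m * m) = 1 := by
          have : (4 : k) * (m * m) = (2 * m) * (2 * m) := by ring
          rw [this, h5, one_mul]
        rw [h4, mul_one] at h6
        have : (3 : k) = 0 := by linear_combination h6
        norm_num at this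
      · intro h3
        apply m1
        rw [← inv_inv m, h3, inv_one]
      · have h4 : algebraMap k K d ^ 2 = algebraMap k K m⁻¹ ^ 3 := by
          rw [← map_pow, hd, ← map_pow, inv_pow]
        have h6 : algebraMap k K m⁻¹ * algebraMap k K m = 1 := by
          rw [← map_mul, inv_mul_cancel₀ m0, map_one]
        unfold lg
        simp only [map_mul, map_sub, aeval_X, aeval_C, map_one, map_zero, add_zero]
        rw [mul_pow, heq]
        linear_combination (x * (x - 1) * (x - algebraMap k K m)) * h4 -
          algebraMap k K m⁻¹ ^ 2 * x * (x - 1) * h6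
    · -- use `1 - m`
      obtain ⟨d, hd⟩ : ∃ d : k, d ^ 2 = -1 :=
        IsAlgClosed.exists_pow_nat_eq _ (n := 2) (by norm_num)
      have hd0 : d ≠ 0 := by
        rintro rfl
        norm_num at hd
      refine ⟨1 - m, algebraMap k K (-1) * x + algebraMap k K 1, algebraMap k K d * y, h2,
        sub_ne_zero.2 (Ne.symm m1), ?_, tr_change h.tr _ (by norm_num), ?_,
        gen_change h.gen (by norm_num) hd0⟩
      · intro h3
        apply m0
        linear_combination -h3
      · have h4 : algebraMap k K d ^ 2 = -1 := by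
          rw [← map_pow, hd, map_neg, map_one]
        unfold lg
        simp only [map_mul, map_sub, aeval_X, aeval_C, map_one, map_neg]
        rw [mul_pow, heq]
        linear_combination (x * (x - 1) * (x - algebraMap k K m)) * h4
  · exact ⟨m, x, y, hml, m0, m1, h⟩

end

section

variable {k : Type} [Field k] [CharZero k] [IsAlgClosed k] [Algebra.IsAlgebraic ℚ k]
  {K : Type} [Field K] [Algebra k K] {L : Type} [Field L] [Algebra k L]

/-- There is a nonzero class of degree zero. -/
theorem exists_class [IsFF k K] {l : k} {x y : K} {σ : K ≃ₐ[k] K} {O : Place k K}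
    (E : Ell l x y σ O) : ∃ α ∈ Pic0 k K, α ≠ 0 := by
  let F : IntermediateField ℚ k := IntermediateField.adjoin ℚ {l}
  have hFfin : FiniteDimensional ℚ F :=
    IntermediateField.adjoin.finiteDimensional (Algebra.IsAlgebraic.isAlgebraic l).isIntegral
  have hNF : NumberField F := ⟨⟩
  have hl : l ∈ F := IntermediateField.mem_adjoin_simple_self ℚ l
  have hT := E.torsion_finite F ⟨l, hl⟩ rfl
  obtain ⟨a, ha⟩ := hT.exists_notMem
  obtain ⟨c, hc⟩ : ∃ c : k, c ^ 2 = (algebraMap F k a) * ((algebraMap F k a) - 1) *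
      ((algebraMap F k a) - l) := IsAlgClosed.exists_pow_nat_eq _ (n := 2) (by norm_num)
  obtain ⟨Q, h1, h2⟩ := E.exists_pt hc
  refine ⟨dif O Q, dif_mem O Q, fun h0 => ha ⟨Q, h1, E.torsion_of_dif h0⟩⟩

/-- **Main theorem** for Legendre forms. -/
theorem main_dbl {l m : k} (l0 : l ≠ 0) (l1 : l ≠ 1) (m0 : m ≠ 0) (m1 : m ≠ 1) {x y : K}
    (hK : Dbl k (lg l) x y) {x' y' : L} (hL : Dbl k (lg m) x' y') {α : PicQ k K}
    (hα : α ∈ Pic0 k K) : ¬ FiniteDimensional ℚ (annih (L := L) α) := by
  have : IsFF k K := hK.isFF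
  have : IsFF k L := hL.isFF
  obtain ⟨m', x₁, y₁, hm', hm0, hm1, hL'⟩ := legendre_ne m0 m1 hL l
  obtain ⟨σ, O, E⟩ := exists_ell l0 l1 hK
  obtain ⟨σ', O', E'⟩ := exists_ell hm0 hm1 hL'
  by_cases hα0 : α = 0
  · obtain ⟨β, hβ, hβ0⟩ := exists_class E
    intro hfin
    apply main_ne E E' (Ne.symm hm') hβ hβ0
    have hle : annih (L := L) β ≤ annih (L := L) α := by
      intro γ hγ
      refine ⟨hγ.1, LinearMap.mem_ker.2 ?_⟩
      rw [hα0, map_zero, LinearMap.zero_apply]
    exact Submodule.finiteDimensional_of_le hle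
  · exact main_ne E E' (Ne.symm hm') hα hα0

end

/-! ### Weierstrass curves -/

section

variable {k : Type} [Field k]

open WeierstrassCurve WeierstrassCurve.Affine

/-- the coordinate function `X` -/
noncomputable def fx (W : WeierstrassCurve k) : W.toAffine.FunctionField :=
  algebraMap W.toAffine.CoordinateRing W.toAffine.FunctionField
    (algebraMap k[X] W.toAffine.CoordinateRing X)

/-- the coordinate function `Y` -/
noncomputable def fy (W : WeierstrassCurve k) : W.toAffine.FunctionField :=
  algebraMap W.toAffine.CoordinateRing W.toAffine.FunctionField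
    (AdjoinRoot.root W.toAffine.polynomial)

lemma fx_aeval (W : WeierstrassCurve k) (p : k[X]) : aeval (fx W) p =
    algebraMap W.toAffine.CoordinateRing W.toAffine.FunctionField
      (algebraMap k[X] W.toAffine.CoordinateRing p) := by
  have h : (aeval (fx W) : k[X] →ₐ[k] W.toAffine.FunctionField) =
      ((IsScalarTower.toAlgHom k W.toAffine.CoordinateRing W.toAffine.FunctionField).comp
        (IsScalarTower.toAlgHom k k[X] W.toAffine.CoordinateRing)) := by
    apply Polynomial.algHom_ext
    rw [aeval_X]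
    rfl
  exact congrArg (fun g => g p) h

lemma fx_tr (W : WeierstrassCurve k) : Transcendental k (fx W) := by
  rw [transcendental_iff_injective]
  intro p q h
  rw [fx_aeval, fx_aeval] at h
  exact FaithfulSMul.algebraMap_injective k[X] W.toAffine.CoordinateRing
    (IsFractionRing.injective W.toAffine.CoordinateRing W.toAffine.FunctionField h)

lemma fxy_gen (W : WeierstrassCurve k) : IntermediateField.adjoin k {fx W, fy W} = ⊤ := by
  rw [eq_top_iff]
  intro z _
  set R := IntermediateField.adjoin k {fx W, fy W} with hR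
  have hx : fx W ∈ R := IntermediateField.subset_adjoin _ _ (by simp)
  have hy : fy W ∈ R := IntermediateField.subset_adjoin _ _ (by simp)
  have hp : ∀ p : k[X], algebraMap W.toAffine.CoordinateRing W.toAffine.FunctionField
      (algebraMap k[X] W.toAffine.CoordinateRing p) ∈ R := by
    intro p
    rw [← fx_aeval]
    exact (IntermediateField.algebra_adjoin_le_adjoin k _) (Algebra.adjoin_mono
        (by simp) (aeval_mem_adjoin_singleton k _ : aeval (fx W) p ∈ _))
  have hc : ∀ c : W.toAffine.CoordinateRing,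
      algebraMap W.toAffine.CoordinateRing W.toAffine.FunctionField c ∈ R := by
    intro c
    obtain ⟨p, q, rfl⟩ := CoordinateRing.exists_smul_basis_eq c
    rw [map_add, Algebra.smul_def, Algebra.smul_def, mul_one, map_mul]
    exact add_mem (hp p) (mul_mem (hp q) hy)
  obtain ⟨a, b, -, rfl⟩ := IsFractionRing.div_surjective (A := W.toAffine.CoordinateRing) z
  exact div_mem (hc a) (hc b)

lemma fxy_eq (W : WeierstrassCurve k) : fy W ^ 2 + algebraMap k _ W.a₁ * fx W * fy W +
    algebraMap k _ W.a₃ * fy W = fx W ^ 3 + algebraMap k _ W.a₂ * fx W ^ 2 +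
      algebraMap k _ W.a₄ * fx W + algebraMap k _ W.a₆ := by
  have h1 : AdjoinRoot.mk W.toAffine.polynomial W.toAffine.polynomial = 0 := AdjoinRoot.mk_self
  have h2 : ∀ p : k[X], AdjoinRoot.mk W.toAffine.polynomial (C p) =
      algebraMap k[X] W.toAffine.CoordinateRing p := fun p => rfl
  have h3 : AdjoinRoot.mk W.toAffine.polynomial W.toAffine.polynomial =
      AdjoinRoot.root W.toAffine.polynomial ^ 2 +
      algebraMap k[X] W.toAffine.CoordinateRing (C W.a₁ * X + C W.a₃) *
        AdjoinRoot.root W.toAffine.polynomial -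
      algebraMap k[X] W.toAffine.CoordinateRing
        (X ^ 3 + C W.a₂ * X ^ 2 + C W.a₄ * X + C W.a₆) := by
    conv_lhs =>
      arg 2
      unfold WeierstrassCurve.Affine.polynomial
    rw [map_sub, map_add, map_mul, map_pow, AdjoinRoot.mk_X, h2, h2]
  rw [h3] at h1
  have h4 := congrArg (algebraMap W.toAffine.CoordinateRing W.toAffine.FunctionField) h1
  rw [map_zero, map_sub, map_add, map_pow, map_mul, ← fx_aeval, ← fx_aeval] at h4
  simp only [map_add, map_mul, map_pow, aeval_X, aeval_C] at h4
  unfold fy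
  linear_combination h4

/-- The Legendre form of a Weierstrass curve. -/
theorem weier_legendre [CharZero k] [IsAlgClosed k] (W : WeierstrassCurve k) [W.IsElliptic] :
    ∃ (l : k) (x₁ y₁ : W.toAffine.FunctionField), l ≠ 0 ∧ l ≠ 1 ∧ Dbl k (lg l) x₁ y₁ := by
  have h4 : (4 : k) ≠ 0 := by norm_num
  have ha : W.twoTorsionPolynomial.a ≠ 0 := h4
  have hd : W.twoTorsionPolynomial.discr ≠ 0 := by
    rw [W.twoTorsionPolynomial_discr]
    refine mul_ne_zero (by norm_num) ?_
    exact W.isUnit_Δ.ne_zero
  obtain ⟨e₁, e₂, e₃, hr⟩ := (Cubic.splits_iff_roots_eq_three (φ := RingHom.id k) ha).1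
    (IsAlgClosed.splits _)
  obtain ⟨h12, h13, h23⟩ := (Cubic.discr_ne_zero_iff_roots_ne ha hr).1 hd
  have hp := Cubic.eq_prod_three_roots ha hr
  have hgen : IntermediateField.adjoin k
      {fx W, 2 * fy W + algebraMap k _ W.a₁ * fx W + algebraMap k _ W.a₃} = ⊤ := by
    rw [eq_top_iff, ← fxy_gen W, IntermediateField.adjoin_le_iff]
    set R := IntermediateField.adjoin k
      {fx W, 2 * fy W + algebraMap k _ W.a₁ * fx W + algebraMap k _ W.a₃} with hR
    have hx : fx W ∈ R := IntermediateField.subset_adjoin _ _ (by simp)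
    have hy : 2 * fy W + algebraMap k _ W.a₁ * fx W + algebraMap k _ W.a₃ ∈ R :=
      IntermediateField.subset_adjoin _ _ (by simp)
    have hc : ∀ c : k, algebraMap k _ c ∈ R := fun c => IntermediateField.algebraMap_mem R c
    rintro z hz
    rcases hz with rfl | hz
    · exact hx
    · rw [Set.mem_singleton_iff] at hz
      subst hz
      have h5 := div_mem (sub_mem (sub_mem hy (hc W.a₃)) (mul_mem (hc W.a₁) hx)) (hc 2)
      have h6 : (algebraMap k W.toAffine.FunctionField 2) = 2 := map_ofNat _ 2
      have h7 : (2 : W.toAffine.FunctionField) ≠ 0 := by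
        rw [← h6]
        exact fun h => two_ne_zero ((algebraMap k W.toAffine.FunctionField).injective
          (h.trans (map_zero _).symm))
      rw [h6] at h5
      have h8 : (2 * fy W + algebraMap k _ W.a₁ * fx W + algebraMap k _ W.a₃ -
          algebraMap k _ W.a₃ - algebraMap k _ W.a₁ * fx W) / 2 = fy W := by
        field_simp
        ring
      rwa [h8] at h5
  refine legendre (fx_tr W) hgen (c := 4) h4 h12 h13 h23 ?_
  have h9 := congrArg (aeval (fx W)) hp
  have h10 : (W.twoTorsionPolynomial.map (RingHom.id k)).toPoly =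
      C 4 * X ^ 3 + C W.b₂ * X ^ 2 + C (2 * W.b₄) * X + C W.b₆ := by
    simp [Cubic.toPoly, Cubic.map, WeierstrassCurve.twoTorsionPolynomial]
  rw [h10] at h9
  have h11 : W.twoTorsionPolynomial.a = 4 := rfl
  rw [h11] at h9
  simp only [map_add, map_mul, map_pow, map_sub, aeval_X, aeval_C, RingHom.id_apply] at h9
  rw [← h9]
  have h12 := fxy_eq W
  have hb2 : algebraMap k W.toAffine.FunctionField W.b₂ = algebraMap k _ W.a₁ ^ 2 +
      4 * algebraMap k _ W.a₂ := by
    unfold WeierstrassCurve.b₂
    rw [map_add, map_mul, map_pow, map_ofNat]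
  have hb4 : algebraMap k W.toAffine.FunctionField W.b₄ = 2 * algebraMap k _ W.a₄ +
      algebraMap k _ W.a₁ * algebraMap k _ W.a₃ := by
    unfold WeierstrassCurve.b₄
    rw [map_add, map_mul, map_mul, map_ofNat]
  have hb6 : algebraMap k W.toAffine.FunctionField W.b₆ = algebraMap k _ W.a₃ ^ 2 +
      4 * algebraMap k _ W.a₆ := by
    unfold WeierstrassCurve.b₆
    rw [map_add, map_mul, map_pow, map_ofNat]
  rw [hb2, hb4, hb6, map_ofNat, map_ofNat]
  linear_combination 4 * h12

end

end Pool.Agent.H834.E
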