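import Pool.Agent.H834.E.Line

/-!
# Functions with poles only at the origin
-/

set_option autoImplicit false
set_option linter.unusedSectionVars false
set_option linter.unusedVariables false

namespace Pool.Agent.H834.E

open FF Polynomial Module Pool.Agent.Q70.CH Pool.Agent.Q70.KM

section

variable {k : Type} [Field k] {K : Type} [Field K] [Algebra k K] {f : k[X]} {x y : K}

/-- Every element of `k(x, y)` is `(A(x) + B(x) y) / D(x)`. -/
theorem Dbl.decomp (h : Dbl k f x y) (hf : f.Separable) (hd : 0 < f.natDegree) (u : K) :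
    ∃ A B D : k[X], D ≠ 0 ∧ u * aeval x D = aeval x A + aeval x B * y := by
  have : Fact (Irreducible (mp f)) := ⟨mp_irr hf hd⟩
  obtain ⟨E, h1, h2, h3⟩ := model_map (f := f) (algebraMap k K) x y h.inj h.eq
  have hp : ∀ p : k[X], E (AdjoinRoot.of (mp f) (algebraMap k[X] (RatFunc k) p)) = aeval x p := by
    intro p
    have : (E.comp (AdjoinRoot.of (mp f))).comp (algebraMap k[X] (RatFunc k)) =
        ((aeval x : k[X] →ₐ[k] K) : k[X] →+* K) := by
      apply Polynomial.ringHom_ext
      · intro c
        have hc : algebraMap k (AdjoinRoot (mp f)) c =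
            AdjoinRoot.of (mp f) (algebraMap k[X] (RatFunc k) (C c)) := by
          rw [IsScalarTower.algebraMap_apply k (RatFunc k) (AdjoinRoot (mp f)),
            IsScalarTower.algebraMap_apply k k[X] (RatFunc k)]
          rfl
        change E (AdjoinRoot.of (mp f) (algebraMap k[X] (RatFunc k) (C c))) = aeval x (C c)
        rw [← hc, h1, aeval_C]
      · change E (AdjoinRoot.of (mp f) (algebraMap k[X] (RatFunc k) X)) = aeval x X
        rw [h2, aeval_X]
    exact congrArg (fun g => g p) this
  have hs : Function.Surjective E := by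
    let R : IntermediateField k K := E.fieldRange.toIntermediateField (fun c => ⟨_, h1 c⟩)
    have hR : R = ⊤ := by
      rw [eq_top_iff, ← h.gen, IntermediateField.adjoin_le_iff]
      rintro z hz
      rcases hz with rfl | hz
      · exact ⟨_, h2⟩
      · rw [Set.mem_singleton_iff] at hz
        subst hz
        exact ⟨_, h3⟩
    intro z
    have hz : z ∈ R := by rw [hR]; trivial
    exact hz
  obtain ⟨z, rfl⟩ := hs u
  obtain ⟨p, rfl⟩ := AdjoinRoot.mk_surjective z
  have hmon : (mp f).Monic := monic_X_pow_sub_C _ two_ne_zero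
  set q := p %ₘ mp f with hq
  have hq1 : AdjoinRoot.mk (mp f) p = AdjoinRoot.mk (mp f) q := by
    conv_lhs => rw [← modByMonic_add_div p (mp f)]
    rw [map_add, map_mul, AdjoinRoot.mk_self, zero_mul, add_zero]
  have hq2 : q.degree ≤ 1 := by
    have h4 := degree_modByMonic_lt p hmon
    have h5 : (mp f).degree = 2 := by
      unfold mp
      exact degree_X_pow_sub_C (by norm_num) _
    rw [h5] at h4
    have : q.degree < 2 := h4
    exact Order.le_of_lt_succ this
  rw [hq1, eq_X_add_C_of_degree_le_one hq2]
  obtain ⟨a1, d1, hd1, ha⟩ := IsFractionRing.div_surjective (A := k[X]) (q.coeff 1)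
  obtain ⟨a0, d0, hd0, hb⟩ := IsFractionRing.div_surjective (A := k[X]) (q.coeff 0)
  have hd1' : d1 ≠ 0 := nonZeroDivisors.ne_zero hd1
  have hd0' : d0 ≠ 0 := nonZeroDivisors.ne_zero hd0
  refine ⟨a0 * d1, a1 * d0, d1 * d0, mul_ne_zero hd1' hd0', ?_⟩
  have hD : ∀ d : k[X], d ≠ 0 → aeval x d ≠ 0 := by
    intro d hd0 h0
    exact h.tr ⟨d, hd0, h0⟩
  rw [map_add, map_mul, AdjoinRoot.mk_X, AdjoinRoot.mk_C, AdjoinRoot.mk_C, map_add, map_mul, h3,
    ← ha, ← hb, map_div₀, map_div₀, map_div₀, map_div₀, hp, hp, hp, hp, map_mul, map_mul, map_mul]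
  have e1 := hD d1 hd1'
  have e0 := hD d0 hd0'
  field_simp
  ring

end

section

variable {k : Type} [Field k] [CharZero k] [IsAlgClosed k] {K : Type} [Field K] [Algebra k K]
  [IsFF k K]

namespace Ell

variable {l : k} {x y : K} {σ : K ≃ₐ[k] K} {O : Place k K}

lemma ord_y (E : Ell l x y σ O) {P : Place k K} {a : k} (ha : At P x a) (hb : At P y 0) :
    P.ord y = 1 := by
  have h1 := E.h.ord_even E.sep ha (by
    obtain ⟨b', h1, h2⟩ := E.h.y_at ha
    rw [← h2, ← hb.unique h1]; ring)
  have h2 := (E.ord_x ha hb).1 rfl
  omega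

lemma aeval_ne (E : Ell l x y σ O) {p : k[X]} (hp : p ≠ 0) : aeval x p ≠ 0 :=
  fun h0 => E.h.tr ⟨p, hp, h0⟩

/-- The functions with poles only at the origin are the polynomials in `x` and `y`. -/
theorem integral (E : Ell l x y σ O) {u : K} (hu : ∀ P : Place k K, P ≠ O → P.Reg u) :
    ∃ A B : k[X], u = aeval x A + aeval x B * y := by
  classical
  have key : ∀ n : ℕ, ∀ A B D : k[X], D ≠ 0 → D.natDegree = n →
      u * aeval x D = aeval x A + aeval x B * y → ∃ A B : k[X], u = aeval x A + aeval x B * y := by
    intro n
    induction n with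
    | zero =>
      intro A B D hD hn h
      obtain ⟨c, rfl⟩ := natDegree_eq_zero.1 hn
      have hc : c ≠ 0 := by
        rintro rfl
        exact hD C_0
      refine ⟨C c⁻¹ * A, C c⁻¹ * B, ?_⟩
      rw [map_mul, map_mul, aeval_C]
      rw [aeval_C] at h
      have h1 : algebraMap k K c⁻¹ * algebraMap k K c = 1 := by
        rw [← map_mul, inv_mul_cancel₀ hc, map_one]
      calc u = (algebraMap k K c⁻¹ * algebraMap k K c) * u := by rw [h1, one_mul]
        _ = algebraMap k K c⁻¹ * (u * algebraMap k K c) := by ring
        _ = _ := by rw [h]; ring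
    | succ n ih =>
      intro A B D hD hn h
      obtain ⟨a, ha⟩ : ∃ a, D.IsRoot a := by
        apply IsAlgClosed.exists_root
        intro h0
        have := natDegree_eq_zero_iff_degree_le_zero.2 h0.le
        omega
      obtain ⟨D', hD'⟩ := dvd_iff_isRoot.2 ha
      obtain ⟨b, hb⟩ : ∃ b : k, b ^ 2 = a * (a - 1) * (a - l) := by
        obtain ⟨b, hb⟩ := IsAlgClosed.exists_pow_nat_eq (a * (a - 1) * (a - l)) (n := 2) (by norm_num)
        exact ⟨b, hb⟩
      obtain ⟨P, hPx, hPy⟩ := E.exists_pt hb
      have hPO := E.ne_O hPx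
      -- the value of `A + B y`
      have hval : ∀ Q : Place k K, At Q x a → Q.Reg u →
          At Q (aeval x A + aeval x B * y) 0 := by
        intro Q hQ hr
        obtain ⟨c, hc⟩ := exists_at hr
        have h1 := hc.mul (hQ.aeval D)
        rw [h, ha.eq_zero, mul_zero] at h1
        exact h1
      have h1 : A.eval a + B.eval a * b = 0 := by
        have h2 := ((hPx.aeval A).add ((hPx.aeval B).mul hPy))
        exact h2.unique (hval P hPx (hu P hPO))
      have h2 : A.eval a + B.eval a * (-b) = 0 := by
        have hx' := E.comp_x hPx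
        have h2 := ((hx'.aeval A).add ((hx'.aeval B).mul (E.comp_y hPy)))
        exact h2.unique (hval _ hx' (hu _ (E.ne_O hx')))
      have hA : A.eval a = 0 := by
        have : (2 : k) * A.eval a = 0 := by linear_combination h1 + h2
        exact (mul_eq_zero.1 this).resolve_left two_ne_zero
      have hB : B.eval a = 0 := by
        by_cases hb0 : b = 0
        · subst hb0
          by_contra hBa
          have hB0 : B ≠ 0 := by
            rintro rfl
            exact hBa eval_zero
          have ho := (E.ord_x hPx hPy).1 rfl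
          have hyo := E.ord_y hPx hPy
          have hge : ∀ p : k[X], p.eval a = 0 → aeval x p = 0 ∨ 2 ≤ P.ord (aeval x p) := by
            intro p hp
            by_cases hp0 : p = 0
            · left; rw [hp0, map_zero]
            · right
              obtain ⟨p', rfl⟩ := dvd_iff_isRoot.2 hp
              have hp' : p' ≠ 0 := right_ne_zero_of_mul hp0
              rw [map_mul, map_sub, aeval_X, aeval_C, P.ord_mul (E.h.xa_ne a) (E.aeval_ne hp'), ho]
              have := (P.reg_iff (E.aeval_ne hp')).1 (hPx.aeval p').1
              omega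
          have h3 : P.ord (aeval x B * y) = 1 := by
            rw [P.ord_mul (E.aeval_ne hB0) E.y_ne, hyo, (hPx.aeval B).ord_eq_zero hBa]
            norm_num
          have hne : aeval x B * y ≠ 0 := mul_ne_zero (E.aeval_ne hB0) E.y_ne
          -- `B y = u D - A`
          have h4 : aeval x B * y = u * aeval x D - aeval x A := by rw [h]; ring
          have h5 : u * aeval x D = 0 ∨ 2 ≤ P.ord (u * aeval x D) := by
            by_cases hu0 : u = 0
            · left; rw [hu0, zero_mul]
            · right
              rw [P.ord_mul hu0 (E.aeval_ne hD)]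
              have h6 := (P.reg_iff hu0).1 (hu P hPO)
              have h7 := (hge D ha).resolve_left (E.aeval_ne hD)
              omega
          have h6 := hge A hA
          rcases h5 with h5 | h5
          · rw [h5, zero_sub] at h4
            rcases h6 with h6 | h6
            · rw [h6, neg_zero] at h4
              exact hne h4
            · rw [h4, P.ord_neg] at h3
              omega
          · rcases h6 with h6 | h6
            · rw [h6, sub_zero] at h4
              rw [h4] at h3
              omega
            · by_cases e1 : u * aeval x D = 0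
              · rw [e1, P.ord_zero] at h5
                omega
              by_cases e2 : aeval x A = 0
              · rw [e2, P.ord_zero] at h6
                omega
              rw [h4] at hne h3
              have h7 := P.ord_sub e1 e2 hne
              rw [h3] at h7
              have h8 : (2 : ℤ) ≤ min (P.ord (u * aeval x D)) (P.ord (aeval x A)) := le_min h5 h6
              omega
        · rw [hA, zero_add] at h1
          exact (mul_eq_zero.1 h1).resolve_right hb0
      obtain ⟨A', rfl⟩ := dvd_iff_isRoot.2 hA
      obtain ⟨B', rfl⟩ := dvd_iff_isRoot.2 hB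
      subst hD'
      have hD0 : D' ≠ 0 := right_ne_zero_of_mul hD
      refine ih A' B' D' hD0 ?_ ?_
      · rw [natDegree_mul (X_sub_C_ne_zero a) hD0, natDegree_X_sub_C] at hn
        omega
      · apply mul_left_cancel₀ (E.h.xa_ne a)
        rw [map_mul, map_mul, map_mul, map_sub, aeval_X, aeval_C] at h
        linear_combination h
  obtain ⟨A, B, D, hD, h⟩ := E.h.decomp E.sep E.deg u
  exact key _ A B D hD rfl h

lemma ord_O_aeval (E : Ell l x y σ O) {p : k[X]} (hp : p ≠ 0) :
    O.ord (aeval x p) = -2 * p.natDegree := by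
  have key : ∀ n : ℕ, ∀ p : k[X], p ≠ 0 → p.natDegree = n → O.ord (aeval x p) = -2 * n := by
    intro n
    induction n with
    | zero =>
      intro p hp hn
      obtain ⟨c, rfl⟩ := natDegree_eq_zero.1 hn
      rw [aeval_C, O.ord_const (by rintro rfl; exact hp C_0)]
      norm_num
    | succ n ih =>
      intro p hp hn
      obtain ⟨a, ha⟩ : ∃ a, p.IsRoot a := by
        apply IsAlgClosed.exists_root
        intro h0
        have := natDegree_eq_zero_iff_degree_le_zero.2 h0.le
        omega
      obtain ⟨p', rfl⟩ := dvd_iff_isRoot.2 ha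
      have hp' : p' ≠ 0 := right_ne_zero_of_mul hp
      rw [natDegree_mul (X_sub_C_ne_zero a) hp', natDegree_X_sub_C] at hn
      rw [map_mul, map_sub, aeval_X, aeval_C, O.ord_mul (E.h.xa_ne a) (E.aeval_ne hp'),
        ih p' hp' (by omega),
        (ord_sub_const (P := O) (x := x) (by rw [E.ox]; omega) a).2, E.ox]
      push_cast
      ring
  exact key _ p hp rfl

/-- The functions with at most a double pole at the origin. -/
theorem two_O (E : Ell l x y σ O) {u : K} (hu : ∀ P : Place k K, P ≠ O → P.Reg u)
    (hO : -2 ≤ O.ord u) :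
    ∃ a b : k, u = algebraMap k K a * x + algebraMap k K b := by
  obtain ⟨A, B, h⟩ := E.integral hu
  have hB : B = 0 := by
    by_contra hB
    have h1 : O.ord (aeval x B * y) = -2 * B.natDegree - 3 := by
      rw [O.ord_mul (E.aeval_ne hB) E.y_ne, E.ord_O_aeval hB, E.oy]
      ring
    have h2 : aeval x B * y ≠ 0 := mul_ne_zero (E.aeval_ne hB) E.y_ne
    by_cases hA : A = 0
    · rw [hA, map_zero, zero_add] at h
      rw [h, h1] at hO
      omega
    · have h3 := E.ord_O_aeval hA
      have h4 : aeval x A ≠ 0 := E.aeval_ne hA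
      rcases lt_trichotomy (O.ord (aeval x A)) (O.ord (aeval x B * y)) with h5 | h5 | h5
      · have h6 := (O.ord_add_eq h4 h2 h5).2
        rw [← h] at h6
        omega
      · omega
      · have h6 := (O.ord_add_eq h2 h4 h5).2
        rw [add_comm, ← h] at h6
        omega
  subst hB
  rw [map_zero, zero_mul, add_zero] at h
  by_cases hA : A = 0
  · exact ⟨0, 0, by rw [h, hA]; simp⟩
  have h1 := E.ord_O_aeval hA
  rw [← h] at h1
  have h2 : A.natDegree ≤ 1 := by omega
  refine ⟨A.coeff 1, A.coeff 0, ?_⟩
  rw [h]
  conv_lhs => rw [eq_X_add_C_of_natDegree_le_one h2]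
  rw [map_add, map_mul, aeval_X, aeval_C, aeval_C]

end Ell

end

end Pool.Agent.H834.E
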