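import Pool.Agent.H834.E.Push

/-!
# The elliptic curve `y² = x (x - 1) (x - l)`
-/

set_option autoImplicit false
set_option linter.unusedSectionVars false
set_option linter.unusedVariables false

namespace Pool.Agent.H834.E

open FF Polynomial Module Pool.Agent.Q70.CH Pool.Agent.Q70.KM

section

variable {k : Type} [Field k]

/-- the polynomial `X (X - 1) (X - l)` -/
noncomputable def lg (l : k) : k[X] := X * (X - C 1) * (X - C l)

lemma lg_eval (l a : k) : (lg l).eval a = a * (a - 1) * (a - l) := by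
  simp [lg]

lemma lg_monic (l : k) : (lg l).Monic :=
  (monic_X.mul (monic_X_sub_C 1)).mul (monic_X_sub_C l)

lemma lg_natDegree (l : k) : (lg l).natDegree = 3 := by
  unfold lg
  rw [(monic_X.mul (monic_X_sub_C 1)).natDegree_mul (monic_X_sub_C l),
    monic_X.natDegree_mul (monic_X_sub_C 1), natDegree_X, natDegree_X_sub_C, natDegree_X_sub_C]

lemma lg_sep {l : k} (h0 : l ≠ 0) (h1 : l ≠ 1) : (lg l).Separable := by
  have e1 : (X : k[X]).Separable := separable_X
  have e2 : (X - C 1 : k[X]).Separable := separable_X_sub_C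
  have e3 : (X - C l : k[X]).Separable := separable_X_sub_C
  have hX : (X - C 0 : k[X]) = X := by rw [C_0, sub_zero]
  have c1 : IsCoprime (X - C 0 : k[X]) (X - C 1) :=
    isCoprime_X_sub_C_of_isUnit_sub (by simp)
  have c2 : IsCoprime (X - C 0 : k[X]) (X - C l) :=
    isCoprime_X_sub_C_of_isUnit_sub (by simpa using h0)
  rw [hX] at c1 c2
  unfold lg
  have c3 : IsCoprime (X - C 1 : k[X]) (X - C l) :=
    isCoprime_X_sub_C_of_isUnit_sub (sub_ne_zero.2 (Ne.symm h1)).isUnit
  exact (e1.mul e2 c1).mul e3 (c2.mul_left c3)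

end

section

variable {k : Type} [Field k] [CharZero k] [IsAlgClosed k] {K : Type} [Field K] [Algebra k K]
  [IsFF k K]

/-- The elliptic curve `y² = x (x - 1) (x - l)`, its involution and its origin. -/
structure Ell (l : k) (x y : K) (σ : K ≃ₐ[k] K) (O : Place k K) : Prop where
  h : Dbl k (lg l) x y
  l0 : l ≠ 0
  l1 : l ≠ 1
  sx : σ x = x
  sy : σ y = -y
  ox : O.ord x = -2
  oy : O.ord y = -3
  reg : ∀ P : Place k K, P ≠ O → P.Reg x

lemma ord_sub_const {P : Place k K} {x : K} (hx : P.ord x < 0) (c : k) :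
    x - algebraMap k K c ≠ 0 ∧ P.ord (x - algebraMap k K c) = P.ord x := by
  have hx0 : x ≠ 0 := by
    rintro rfl
    rw [P.ord_zero] at hx
    omega
  by_cases hc : c = 0
  · rw [hc, map_zero, sub_zero]
    exact ⟨hx0, rfl⟩
  · have h1 : algebraMap k K c ≠ 0 := by simpa using hc
    rw [sub_eq_add_neg]
    exact P.ord_add_eq hx0 (neg_ne_zero.2 h1) (by rw [P.ord_neg, P.ord_const hc]; exact hx)

lemma eq_mul {l : k} {x y : K} (h : Dbl k (lg l) x y) :
    y ^ 2 = x * (x - algebraMap k K 1) * (x - algebraMap k K l) := by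
  rw [h.eq]
  unfold lg
  rw [map_mul, map_mul, map_sub, map_sub, aeval_X, aeval_C, aeval_C]

lemma ord_pole {l : k} {x y : K} (h : Dbl k (lg l) x y) {P : Place k K} (hx : P.ord x < 0) :
    2 * P.ord y = 3 * P.ord x := by
  have h1 := congrArg P.ord (eq_mul h)
  obtain ⟨h2, h3⟩ := ord_sub_const hx 1
  obtain ⟨h4, h5⟩ := ord_sub_const hx l
  have hx0 : x ≠ 0 := by
    rintro rfl
    rw [P.ord_zero] at hx
    omega
  rw [P.ord_pow, P.ord_mul (mul_ne_zero hx0 h2) h4, P.ord_mul hx0 h2, h3, h5] at h1
  push_cast at h1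
  linarith

theorem exists_ell {l : k} (l0 : l ≠ 0) (l1 : l ≠ 1) {x y : K} (h : Dbl k (lg l) x y) :
    ∃ (σ : K ≃ₐ[k] K) (O : Place k K), Ell l x y σ O := by
  classical
  obtain ⟨σ, h1, h2⟩ := h.exists_inv (lg_sep l0 l1) (by rw [lg_natDegree]; norm_num)
  obtain ⟨S, h3, ⟨O, hO⟩, h4⟩ := h.poles
  have h5 : ∀ w : Place k K, w.ord x < 0 → w.ord x ≤ -2 := by
    intro w hw
    have := ord_pole h hw
    omega
  have hO' := (h3 O).1 hO
  have h6 : ∀ P : Place k K, P.ord x < 0 → P = O := by
    intro P hP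
    by_contra hne
    have h7 : ∑ w ∈ {P, O}, (- w.ord x).toNat ≤ 2 := (Finset.sum_le_sum_of_subset (by
      intro w hw
      simp only [Finset.mem_insert, Finset.mem_singleton] at hw
      rcases hw with rfl | rfl
      · exact (h3 _).2 hP
      · exact hO)).trans h4
    rw [Finset.sum_pair hne] at h7
    have := h5 P hP
    have := h5 O hO'
    omega
  have h7 : O.ord x = -2 := by
    have h8 : ∑ w ∈ {O}, (- w.ord x).toNat ≤ 2 := (Finset.sum_le_sum_of_subset
      (Finset.singleton_subset_iff.2 hO)).trans h4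
    rw [Finset.sum_singleton] at h8
    have := h5 O hO'
    omega
  refine ⟨σ, O, h, l0, l1, h1, h2, h7, ?_, ?_⟩
  · have := ord_pole h hO'
    omega
  · intro P hP
    by_contra hc
    apply hP
    apply h6
    unfold Place.Reg at hc
    push Not at hc
    exact hc.2

namespace Ell

variable {l : k} {x y : K} {σ : K ≃ₐ[k] K} {O : Place k K}

lemma sep (E : Ell l x y σ O) : (lg l).Separable := lg_sep E.l0 E.l1

omit [CharZero k] [IsAlgClosed k] [IsFF k K] in
lemma deg (_ : Ell l x y σ O) : 0 < (lg l).natDegree := by rw [lg_natDegree]; norm_num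

lemma x_ne (E : Ell l x y σ O) : x ≠ 0 := by
  rintro rfl
  have := E.ox
  rw [O.ord_zero] at this
  omega

lemma y_ne (E : Ell l x y σ O) : y ≠ 0 := by
  rintro rfl
  have := E.oy
  rw [O.ord_zero] at this
  omega

lemma ne_O (E : Ell l x y σ O) {P : Place k K} {a : k} (h : At P x a) : P ≠ O := by
  rintro rfl
  have := (P.reg_iff E.x_ne).1 h.1
  rw [E.ox] at this
  omega

lemma cases (E : Ell l x y σ O) (P : Place k K) :
    P = O ∨ ∃ a b, At P x a ∧ At P y b ∧ b ^ 2 = a * (a - 1) * (a - l) := by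
  by_cases h : P = O
  · exact Or.inl h
  · right
    obtain ⟨a, ha⟩ := exists_at (E.reg P h)
    obtain ⟨b, hb, he⟩ := E.h.y_at ha
    exact ⟨a, b, ha, hb, by rw [he, lg_eval]⟩

lemma b_sq (E : Ell l x y σ O) {P : Place k K} {a b : k} (ha : At P x a) (hb : At P y b) :
    b ^ 2 = a * (a - 1) * (a - l) := by
  obtain ⟨b', hb', he⟩ := E.h.y_at ha
  rw [hb.unique hb', he, lg_eval]

lemma exists_pt (E : Ell l x y σ O) {a b : k} (h : b ^ 2 = a * (a - 1) * (a - l)) :
    ∃ P : Place k K, At P x a ∧ At P y b :=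
  E.h.exists_at E.sep E.deg (by rw [h, lg_eval])

lemma ext (E : Ell l x y σ O) {P P' : Place k K} {a b : k} (ha : At P x a) (hb : At P y b)
    (ha' : At P' x a) (hb' : At P' y b) : P = P' :=
  E.h.eq_of_at E.sep E.deg ha' hb' ha hb

lemma comp_x (E : Ell l x y σ O) {P : Place k K} {a : k} (ha : At P x a) :
    At (P.comp σ) x a := by rw [at_comp, E.sx]; exact ha

lemma comp_y (E : Ell l x y σ O) {P : Place k K} {b : k} (hb : At P y b) :
    At (P.comp σ) y (-b) := by rw [at_comp, E.sy]; exact hb.neg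

lemma comp_O (E : Ell l x y σ O) : O.comp σ = O := by
  by_contra hne
  have h1 := (Place.reg_iff _ E.x_ne).1 (E.reg _ hne)
  have h2 : (O.comp σ).ord x = O.ord (σ x) := rfl
  rw [h2, E.sx, E.ox] at h1
  omega

lemma ord_x (E : Ell l x y σ O) {Q : Place k K} {a b : k} (ha : At Q x a) (hb : At Q y b) :
    (b = 0 → Q.ord (x - algebraMap k K a) = 2) ∧ (b ≠ 0 → Q.ord (x - algebraMap k K a) = 1) :=
  (E.h.over E.sep E.sx E.sy ha hb Q ha).2

lemma ord_x_ne (E : Ell l x y σ O) {Q : Place k K} {a a' : k} (ha : At Q x a) (hne : a ≠ a') :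
    Q.ord (x - algebraMap k K a') = 0 := by
  have h1 := ha.sub (at_const Q a')
  exact h1.ord_eq_zero (sub_ne_zero.2 hne)

/-- the divisor of `x - a` -/
lemma div_x (E : Ell l x y σ O) {P : Place k K} {a b : k} (ha : At P x a) (hb : At P y b) :
    divisor k (x - algebraMap k K a) =
      Finsupp.single P 1 + Finsupp.single (P.comp σ) 1 - Finsupp.single O 2 := by
  classical
  ext Q
  rw [divisor_apply, Finsupp.sub_apply, Finsupp.add_apply, Finsupp.single_apply,
    Finsupp.single_apply, Finsupp.single_apply]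
  by_cases hQ : Q = O
  · subst hQ
    have h1 := E.ne_O ha
    have h2 := E.ne_O (E.comp_x ha)
    rw [if_neg h1, if_neg h2, if_pos rfl]
    have := (ord_sub_const (P := Q) (x := x) (by rw [E.ox]; omega) a).2
    rw [this, E.ox]
    norm_num
  · rw [if_neg (Ne.symm hQ), sub_zero]
    obtain ⟨c, d, hc, hd, -⟩ := (E.cases Q).resolve_left hQ
    by_cases hca : c = a
    · subst hca
      have h1 := (E.h.over E.sep E.sx E.sy ha hb Q hc).1
      by_cases hb0 : b = 0
      · subst hb0
        have h2 : P.comp σ = P := by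
          have := E.comp_y hb
          rw [neg_zero] at this
          exact E.ext (E.comp_x ha) this ha hb
        rw [h2] at h1 ⊢
        have h3 : Q = P := by rcases h1 with h1 | h1 <;> exact h1
        subst h3
        rw [if_pos rfl, (E.ord_x ha hb).1 rfl]
        norm_num
      · have h2 : P.comp σ ≠ P := by
          intro h2
          have := E.comp_y hb
          rw [h2] at this
          have h3 := hb.unique this
          apply hb0
          have h4 : (2 : k) * b = 0 := by linear_combination h3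
          exact (mul_eq_zero.1 h4).resolve_left two_ne_zero
        rcases h1 with h1 | h1
        · subst h1
          rw [if_pos rfl, if_neg h2, (E.ord_x ha hb).2 hb0]
          norm_num
        · rw [h1, if_neg (Ne.symm h2), if_pos rfl,
            (E.ord_x (E.comp_x ha) (E.comp_y hb)).2 (neg_ne_zero.2 hb0)]
          norm_num
    · rw [E.ord_x_ne hc hca, if_neg, if_neg]
      · norm_num
      · intro h1
        have h2 := E.comp_x ha
        rw [h1] at h2
        exact hca (hc.unique h2)
      · intro h1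
        rw [h1] at ha
        exact hca (hc.unique ha)

/-- the divisor of `y - s x - c` -/
lemma div_line (E : Ell l x y σ O) {s c a₁ a₂ a₃ : k}
    (e1 : 1 + l + s ^ 2 = a₁ + a₂ + a₃) (e2 : l - 2 * s * c = a₁ * a₂ + a₁ * a₃ + a₂ * a₃)
    (e3 : c ^ 2 = a₁ * a₂ * a₃) {P₁ P₂ P₃ : Place k K} (h₁ : At P₁ x a₁)
    (h₁' : At P₁ y (s * a₁ + c)) (h₂ : At P₂ x a₂) (h₂' : At P₂ y (s * a₂ + c)) (h₃ : At P₃ x a₃)
    (h₃' : At P₃ y (s * a₃ + c)) :
    ∃ u : K, u ≠ 0 ∧ divisor k u = Finsupp.single P₁ 1 + Finsupp.single P₂ 1 +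
      Finsupp.single P₃ 1 - Finsupp.single O 3 := by
  classical
  set A := algebraMap k K with hA
  set m := A s * x + A c with hm
  have hprod : (y - m) * (-y - m) = -((x - A a₁) * (x - A a₂) * (x - A a₃)) := by
    have h1 := eq_mul E.h
    have g1 : 1 + A l + A s ^ 2 = A a₁ + A a₂ + A a₃ := by
      rw [← map_one A, ← map_pow, ← map_add, ← map_add, ← map_add, ← map_add, e1]
    have g2 : A l - 2 * A s * A c = A a₁ * A a₂ + A a₁ * A a₃ + A a₂ * A a₃ := by
      have h2 : A 2 = 2 := map_ofNat A 2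
      rw [← h2, ← map_mul, ← map_mul, ← map_sub, e2, map_add, map_add, map_mul, map_mul, map_mul]
    have g3 : A c ^ 2 = A a₁ * A a₂ * A a₃ := by
      rw [← map_pow, e3, map_mul, map_mul]
    rw [map_one, ← hA] at h1
    rw [hm]
    linear_combination -h1 + x ^ 2 * g1 - x * g2 + g3
  have hu0 : y - m ≠ 0 := by
    intro h0
    rw [h0, zero_mul, zero_eq_neg] at hprod
    exact mul_ne_zero (mul_ne_zero (E.h.xa_ne a₁) (E.h.xa_ne a₂)) (E.h.xa_ne a₃) hprod
  have hv0 : -y - m ≠ 0 := by
    intro h0
    rw [h0, mul_zero, zero_eq_neg] at hprod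
    exact mul_ne_zero (mul_ne_zero (E.h.xa_ne a₁) (E.h.xa_ne a₂)) (E.h.xa_ne a₃) hprod
  have hord : ∀ Q : Place k K, Q.ord (y - m) + Q.ord (-y - m) =
      Q.ord (x - A a₁) + Q.ord (x - A a₂) + Q.ord (x - A a₃) := by
    intro Q
    have := congrArg Q.ord hprod
    rwa [Q.ord_mul hu0 hv0, Q.ord_neg, Q.ord_mul (mul_ne_zero (E.h.xa_ne a₁) (E.h.xa_ne a₂))
      (E.h.xa_ne a₃), Q.ord_mul (E.h.xa_ne a₁) (E.h.xa_ne a₂)] at this
  have hσ : σ (y - m) = -y - m := by
    rw [map_sub, E.sy, hm, map_add, map_mul, E.sx, hA, σ.commutes, σ.commutes]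
  refine ⟨y - m, hu0, ?_⟩
  ext Q
  rw [divisor_apply, Finsupp.sub_apply, Finsupp.add_apply, Finsupp.add_apply,
    Finsupp.single_apply, Finsupp.single_apply, Finsupp.single_apply, Finsupp.single_apply]
  by_cases hQ : Q = O
  · subst hQ
    rw [if_neg (E.ne_O h₁), if_neg (E.ne_O h₂), if_neg (E.ne_O h₃), if_pos rfl]
    have h1 : Q.ord (-y - m) = Q.ord (y - m) := by
      have h2 : (Q.comp σ).ord (y - m) = Q.ord (σ (y - m)) := rfl
      rw [hσ, E.comp_O] at h2
      exact h2.symm
    have h2 := hord Q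
    have h3 : ∀ a, Q.ord (x - A a) = -2 := fun a => by
      rw [(ord_sub_const (P := Q) (x := x) (by rw [E.ox]; omega) a).2, E.ox]
    rw [h1, h3, h3, h3] at h2
    omega
  · rw [if_neg (Ne.symm hQ)]
    obtain ⟨a, b, ha, hb, -⟩ := (E.cases Q).resolve_left hQ
    have hmv : At Q m (s * a + c) := ((at_const Q s).mul ha).add (at_const Q c)
    by_cases hbm : b = s * a + c
    · have hiff : ∀ {P' : Place k K} {a' : k}, At P' x a' → At P' y (s * a' + c) →
          (P' = Q ↔ a' = a) := by
        intro P' a' h h'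
        constructor
        · rintro rfl
          exact h.unique ha
        · rintro rfl
          rw [← hbm] at h'
          exact E.ext h h' ha hb
      by_cases hb0 : b = 0
      · have hcomp : Q.comp σ = Q := by
          have := E.comp_y hb
          rw [hb0, neg_zero, ← hb0] at this
          exact E.ext (E.comp_x ha) this ha hb
        have h1 : Q.ord (-y - m) = Q.ord (y - m) := by
          have h2 : (Q.comp σ).ord (y - m) = Q.ord (σ (y - m)) := rfl
          rw [hσ, hcomp] at h2
          exact h2.symm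
        have h2 := hord Q
        have h3 : ∀ {P' : Place k K} {a' : k}, At P' x a' → At P' y (s * a' + c) →
            Q.ord (x - A a') = 2 * (if P' = Q then 1 else 0) := by
          intro P' a' h h'
          by_cases hP : P' = Q
          · rw [if_pos hP]
            have := (hiff h h').1 hP
            rw [this, (E.ord_x ha hb).1 hb0]
            norm_num
          · rw [if_neg hP]
            have : a ≠ a' := fun h4 => hP ((hiff h h').2 h4.symm)
            rw [E.ord_x_ne ha this]
            norm_num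
        rw [h1, h3 h₁ h₁', h3 h₂ h₂', h3 h₃ h₃'] at h2
        linarith
      · have h1 : Q.ord (-y - m) = 0 := by
          have h2 := hb.neg.sub hmv
          refine h2.ord_eq_zero ?_
          rw [← hbm]
          intro h3
          apply hb0
          have h4 : (2 : k) * b = 0 := by linear_combination -h3
          exact (mul_eq_zero.1 h4).resolve_left two_ne_zero
        have h2 := hord Q
        have h3 : ∀ {P' : Place k K} {a' : k}, At P' x a' → At P' y (s * a' + c) →
            Q.ord (x - A a') = (if P' = Q then 1 else 0) := by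
          intro P' a' h h'
          by_cases hP : P' = Q
          · rw [if_pos hP]
            have := (hiff h h').1 hP
            rw [this, (E.ord_x ha hb).2 hb0]
          · rw [if_neg hP]
            have : a ≠ a' := fun h4 => hP ((hiff h h').2 h4.symm)
            rw [E.ord_x_ne ha this]
        rw [h1, h3 h₁ h₁', h3 h₂ h₂', h3 h₃ h₃'] at h2
        linarith
    · have h1 : Q.ord (y - m) = 0 := (hb.sub hmv).ord_eq_zero (sub_ne_zero.2 hbm)
      have h2 : ∀ {P' : Place k K} {a' : k}, At P' x a' → At P' y (s * a' + c) → P' ≠ Q := by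
        rintro P' a' h h' rfl
        apply hbm
        rw [hb.unique h', ha.unique h]
      rw [h1, if_neg (h2 h₁ h₁'), if_neg (h2 h₂ h₂'), if_neg (h2 h₃ h₃')]
      norm_num

end Ell

end

end Pool.Agent.H834.E
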