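import Pool.Agent.H834.E.Act
import Pool.Agent.H834.E.Fal
import Pool.Graph.R_seed8.Helper386.D5V.Helper379_SFGal

/-!
# The infinite-dimensional kernels
-/

set_option autoImplicit false
set_option linter.unusedSectionVars false
set_option linter.unusedVariables false

namespace Pool.Agent.H834.E

open FF Polynomial Module Pool.Agent.Q70.CH Pool.Agent.Q70.KM

section

variable {k : Type} [Field k] [CharZero k] [IsAlgClosed k]
  {K : Type} [Field K] [Algebra k K] [IsFF k K] {L : Type} [Field L] [Algebra k L] [IsFF k L]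

lemma dif_mem (O P : Place k K) : dif O P ∈ Pic0 k K := by
  refine ⟨Finsupp.single P 1 - Finsupp.single O 1, ?_, ?_⟩
  · simp
  · unfold dif pt
    rw [map_sub]

namespace Ell

variable {l : k} {x y : K} {σ : K ≃ₐ[k] K} {O : Place k K}

/-- Every class of degree zero is a rational multiple of some `P - O`. -/
theorem pic0_pt (E : Ell l x y σ O) {α : PicQ k K} (hα : α ∈ Pic0 k K) :
    ∃ n : ℕ, 0 < n ∧ ∃ R : Place k K, (n : ℚ) • α = dif O R := by
  have key : ∀ v : Place k K →₀ ℚ, ∃ n : ℕ, 0 < n ∧ ∃ R : Place k K,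
      (n : ℚ) • (mkP v - dg v • pt O) = dif O R := by
    intro v
    induction v using Finsupp.induction_linear with
    | zero => exact ⟨1, one_pos, O, by simp [dif]⟩
    | add v w hv hw =>
      obtain ⟨n, hn, R, hR⟩ := hv
      obtain ⟨n', hn', R', hR'⟩ := hw
      obtain ⟨S, hS⟩ := E.nsmul n' R
      obtain ⟨S', hS'⟩ := E.nsmul n R'
      obtain ⟨T, hT⟩ := E.add S S'
      refine ⟨n * n', Nat.mul_pos hn hn', T, ?_⟩
      have h1 : (n' : ℚ) • dif O R = dif O S := by
        rw [← toQ_dz, ← toQ_dz, ← hS, map_nsmul, Nat.cast_smul_eq_nsmul ℚ]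
      have h2 : (n : ℚ) • dif O R' = dif O S' := by
        rw [← toQ_dz, ← toQ_dz, ← hS', map_nsmul, Nat.cast_smul_eq_nsmul ℚ]
      have h3 : dif O T = dif O S + dif O S' := by
        rw [← toQ_dz, ← hT, map_add, toQ_dz, toQ_dz]
      rw [h3, ← h1, ← h2, ← hR, ← hR']
      rw [map_add, map_add, smul_smul, smul_smul]
      push_cast
      module
    | single P c =>
      obtain ⟨R, hR⟩ := E.zsmul c.num P
      refine ⟨c.den, c.pos, R, ?_⟩
      have h1 : (mkP (Finsupp.single P c) : PicQ k K) = c • pt P := by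
        unfold pt
        rw [← map_smul, Finsupp.smul_single, smul_eq_mul, mul_one]
      rw [h1, dg_single, ← toQ_dz, ← hR, map_zsmul, toQ_dz, ← Int.cast_smul_eq_zsmul ℚ,
        ← smul_sub, smul_smul, Rat.den_mul_eq_num]
      rfl
  obtain ⟨v, hv, rfl⟩ := hα
  obtain ⟨n, hn, R, hR⟩ := key v
  have h0 : dg v = 0 := hv
  rw [h0, zero_smul, sub_zero] at hR
  exact ⟨n, hn, R, hR⟩

lemma torsion_of_dif (E : Ell l x y σ O) {Q : Place k K} (h : dif O Q = 0) :
    IsOfFinAddOrder (dz O Q) := torsion_of_toQ (by rw [toQ_dz, h])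

/-- iterated doubling, over a field of definition -/
theorem dbl_seq (E : Ell l x y σ O) (F : Subfield k) (hl : l ∈ F) {P : Place k K} {a b : k}
    (ha : At P x a) (hb : At P y b) (haF : a ∈ F) (hbF : b ∈ F) (hP : dif O P ≠ 0) (i : ℕ) :
    ∃ (R : Place k K) (a b : k), At R x a ∧ At R y b ∧ a ∈ F ∧ b ∈ F ∧ b ≠ 0 ∧
      dif O R = (2 : ℚ) ^ i • dif O P := by
  have hb0 : ∀ (R : Place k K) (a b : k), At R x a → At R y b → ∀ i : ℕ,
      dif O R = (2 : ℚ) ^ i • dif O P → b ≠ 0 := by
    rintro R a b ha hb i hR rfl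
    have h1 : R.comp σ = R := by
      have := E.comp_y hb
      rw [neg_zero] at this
      exact E.ext (E.comp_x ha) this ha hb
    have h2 := E.dif_neg R
    rw [h1] at h2
    have h3 : (2 : ℚ) • dif O R = 0 := by
      rw [two_smul]
      nth_rewrite 1 [h2]
      exact neg_add_cancel _
    have h4 := (smul_eq_zero.1 h3).resolve_left two_ne_zero
    rw [h4] at hR
    exact hP ((smul_eq_zero.1 hR.symm).resolve_left (pow_ne_zero _ two_ne_zero))
  induction i with
  | zero => exact ⟨P, a, b, ha, hb, haF, hbF, hb0 P a b ha hb 0 (by simp), by simp⟩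
  | succ i ih =>
    obtain ⟨R, c, d, hc, hd, hcF, hdF, hd0, hR⟩ := ih
    obtain ⟨s, R', hs, hx', hy', h⟩ := E.dbl hc hd hd0
    have h1 : dif O R' = (2 : ℚ) ^ (i + 1) • dif O P := by
      rw [← toQ_dz, ← h, map_add, toQ_dz, hR, ← two_smul ℚ, smul_smul, pow_succ, mul_comm]
    have h2F : (2 : k) ∈ F := by
      have := natCast_mem F 2
      exact_mod_cast this
    have h3F : (3 : k) ∈ F := by
      have := natCast_mem F 3
      exact_mod_cast this
    have hsF : s ∈ F := by
      rw [hs]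
      refine div_mem (add_mem (sub_mem (mul_mem h3F (pow_mem hcF 2))
        (mul_mem (mul_mem h2F (add_mem (one_mem F) hl)) hcF)) hl) (mul_mem h2F hdF)
    have hxF : 1 + l + s ^ 2 - c - c ∈ F :=
      sub_mem (sub_mem (add_mem (add_mem (one_mem F) hl) (pow_mem hsF 2)) hcF) hcF
    refine ⟨R', _, _, hx', hy', hxF, ?_, hb0 R' _ _ hx' hy' (i + 1) h1, h1⟩
    exact neg_mem (add_mem (mul_mem hsF hxF) (sub_mem hdF (mul_mem hsF hcF)))

/-- The `x`-coordinates of the iterated doubles of a nontorsion point are distinct. -/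
lemma dbl_inj (E : Ell l x y σ O) {P : Place k K} (hP : dif O P ≠ 0) {i j : ℕ}
    {R R' : Place k K} {a b b' : k} (ha : At R x a) (hb : At R y b) (ha' : At R' x a)
    (hb' : At R' y b') (hR : dif O R = (2 : ℚ) ^ i • dif O P)
    (hR' : dif O R' = (2 : ℚ) ^ j • dif O P) : i = j := by
  have h1 := E.b_sq ha hb
  rw [← E.b_sq ha' hb'] at h1
  have hpos : ∀ n : ℕ, (0 : ℚ) < 2 ^ n := fun n => by positivity
  rcases sq_eq_sq_iff_eq_or_eq_neg.1 h1 with h2 | h2
  · subst h2
    have h3 : R = R' := E.ext ha hb ha' hb'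
    rw [h3, hR'] at hR
    have h4 := smul_left_injective ℚ hP hR
    exact (pow_right_injective₀ (by norm_num : (0 : ℚ) < 2) (by norm_num) h4).symm
  · have h3 : R = R'.comp σ := E.ext ha hb (E.comp_x ha') (by rw [h2]; exact E.comp_y hb')
    rw [h3, E.dif_neg, hR', ← neg_smul] at hR
    have h4 : -(2 : ℚ) ^ j = 2 ^ i := smul_left_injective ℚ hP hR
    have := hpos i
    have := hpos j
    linarith

end Ell

/-- **Main theorem**, first form. -/
theorem main_ne [Algebra.IsAlgebraic ℚ k] {l m : k} {x y : K} {σ : K ≃ₐ[k] K} {O : Place k K}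
    (E : Ell l x y σ O) {x' y' : L} {σ' : L ≃ₐ[k] L} {O' : Place k L} (E' : Ell m x' y' σ' O')
    (hlm : l ≠ m) {α : PicQ k K} (hα : α ∈ Pic0 k K) (hα0 : α ≠ 0) :
    ¬ FiniteDimensional ℚ (annih (L := L) α) := by
  classical
  intro hfin
  obtain ⟨n, hn, P, hP⟩ := E.pic0_pt hα
  have hnQ : (n : ℚ) ≠ 0 := Nat.cast_ne_zero.2 hn.ne'
  have hdP : dif O P ≠ 0 := by
    rw [← hP]
    exact smul_ne_zero hnQ hα0
  have hPO : P ≠ O := by
    rintro rfl
    exact hdP (sub_self _)
  obtain ⟨a, b, ha, hb, -⟩ := (E.cases P).resolve_left hPO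
  -- the first field of definition
  let F₀ : IntermediateField ℚ k := IntermediateField.adjoin ℚ {l, m, a, b}
  have hl₀ : l ∈ F₀ := IntermediateField.subset_adjoin _ _ (by simp)
  have hm₀ : m ∈ F₀ := IntermediateField.subset_adjoin _ _ (by simp)
  have ha₀ : a ∈ F₀ := IntermediateField.subset_adjoin _ _ (by simp)
  have hb₀ : b ∈ F₀ := IntermediateField.subset_adjoin _ _ (by simp)
  choose R A B hA hB hAF hBF hB0 hR using fun i =>
    E.dbl_seq F₀.toSubfield hl₀ ha hb ha₀ hb₀ hdP i
  have hAinj : Function.Injective A := by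
    intro i j hij
    have h1 := hA j
    rw [← hij] at h1
    exact E.dbl_inj hdP (hA i) (hB i) h1 (hB j) (hR i) (hR j)
  -- the points on the second curve
  have hQ : ∀ i, ∃ (Q : Place k L) (c : k), At Q x' (A i) ∧ At Q y' c ∧
      c ^ 2 = A i * (A i - 1) * (A i - m) := by
    intro i
    obtain ⟨c, hc⟩ : ∃ c : k, c ^ 2 = A i * (A i - 1) * (A i - m) :=
      IsAlgClosed.exists_pow_nat_eq _ (n := 2) (by norm_num)
    obtain ⟨Q, h1, h2⟩ := E'.exists_pt hc
    exact ⟨Q, c, h1, h2, hc⟩
  choose Q C hQA hQC hC using hQ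
  have hmem : ∀ i, dif O' (Q i) ∈ annih (L := L) α := by
    intro i
    refine ⟨dif_mem _ _, LinearMap.mem_ker.2 ?_⟩
    have h1 := times_zero E E' hlm (hA i) (hB i) (hQA i) (hQC i) (hB0 i)
    rw [hR i, ← hP, map_smul, map_smul, LinearMap.smul_apply, LinearMap.smul_apply] at h1
    exact (smul_eq_zero.1 ((smul_eq_zero.1 h1).resolve_left (pow_ne_zero _ two_ne_zero))).resolve_left
      hnQ
  -- a finite generating subset
  set q : ℕ → PicQ k L := fun i => dif O' (Q i) with hq
  have hle : Submodule.span ℚ (Set.range q) ≤ annih (L := L) α := by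
    rw [Submodule.span_le]
    rintro _ ⟨i, rfl⟩
    exact hmem i
  have hfg : (Submodule.span ℚ (Set.range q)).FG := by
    have := Submodule.finiteDimensional_of_le hle
    exact (Submodule.fg_iff_finiteDimensional _).2 this
  obtain ⟨s, hs1, hs2⟩ := (Submodule.fg_span_iff_fg_span_finset_subset _).1 hfg
  choose! idx hidx using fun z (hz : z ∈ (s : Set (PicQ k L))) => hs1 hz
  -- the second field of definition
  let G : Set k := {l, m, a, b} ∪ (s.image fun z => C (idx z) : Finset k)
  have hGfin : G.Finite := (Set.toFinite _).union (Finset.finite_toSet _)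
  let F : IntermediateField ℚ k := IntermediateField.adjoin ℚ G
  have hFfin : FiniteDimensional ℚ F := by
    have : Finite G := hGfin.to_subtype
    exact IntermediateField.finiteDimensional_adjoin
      (fun z _ => (Algebra.IsAlgebraic.isAlgebraic z).isIntegral)
  have hNF : NumberField F := ⟨⟩
  have hF₀F : F₀ ≤ F := IntermediateField.adjoin.mono _ _ _ Set.subset_union_left
  have hCF : ∀ z ∈ s, C (idx z) ∈ F := fun z hz =>
    IntermediateField.subset_adjoin _ _ (Or.inr (by
      rw [Finset.mem_coe]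
      exact Finset.mem_image_of_mem _ hz))
  -- the Galois action
  have hgal : ∀ (τ : k ≃ₐ[F] k) (j : ℕ), τ (C j) ≠ C j → dif O' (Q j) = 0 := by
    intro τ j hτj
    have hfix : ∀ c ∈ F, τ c = c := fun c hc => τ.commutes ⟨c, hc⟩
    have hτm : τ m = m := hfix m (hF₀F hm₀)
    obtain ⟨Φ, h1, h2, h3⟩ := E'.h.exists_semi E'.sep E'.deg (τ : k ≃+* k) (by
      unfold lg
      simp only [Polynomial.map_mul, Polynomial.map_sub, Polynomial.map_X, Polynomial.map_C]
      have e1 : ((τ : k ≃+* k) : k →+* k) 1 = 1 := map_one _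
      have e2 : ((τ : k ≃+* k) : k →+* k) m = m := hτm
      rw [e1, e2])
    set T := tw (τ : k ≃+* k) Φ h1 with hT
    have hTO : T O' = O' := by
      by_contra hne
      have h4 := ((T O').reg_iff E'.x_ne).1 (E'.reg _ hne)
      have h5 : (T O').ord x' = O'.ord (Φ x') := rfl
      rw [h5, h2, E'.ox] at h4
      omega
    have hTx : ∀ i, At (T (Q i)) x' (A i) := by
      intro i
      rw [hT, at_tw, h2]
      have : (τ : k ≃+* k) (A i) = A i := hfix _ (hF₀F (hAF i))
      rw [this]
      exact hQA i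
    have hfixq : ∀ z ∈ (s : Set (PicQ k L)), twP (τ : k ≃+* k) Φ h1 z =
        (LinearMap.id : PicQ k L →ₗ[ℚ] PicQ k L) z := by
      intro z hz
      rw [← hidx z hz]
      change twP (τ : k ≃+* k) Φ h1 (dif O' (Q (idx z))) = dif O' (Q (idx z))
      rw [twP_dif, ← hT, hTO]
      congr 1
      refine E'.ext (hTx _) ?_ (hQA _) (hQC _)
      rw [hT, at_tw, h3]
      have : (τ : k ≃+* k) (C (idx z)) = C (idx z) := hfix _ (hCF z hz)
      rw [this]
      exact hQC _
    have hall : ∀ i, twP (τ : k ≃+* k) Φ h1 (q i) = q i := by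
      intro i
      have h4 : q i ∈ Submodule.span ℚ (s : Set (PicQ k L)) := by
        rw [← hs2]
        exact Submodule.subset_span ⟨i, rfl⟩
      exact LinearMap.eqOn_span (f := twP (τ : k ≃+* k) Φ h1) 
        (g := (LinearMap.id : PicQ k L →ₗ[ℚ] PicQ k L)) hfixq h4
    have h4 : τ (C j) = - C j := by
      have h5 : τ (C j) ^ 2 = C j ^ 2 := by
        rw [← map_pow, hC j]
        have hAj := hF₀F (hAF j)
        exact hfix _ (mul_mem (mul_mem hAj (sub_mem hAj (one_mem F))) (sub_mem hAj (hF₀F hm₀)))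
      exact (sq_eq_sq_iff_eq_or_eq_neg.1 h5).resolve_left hτj
    have h5 : T (Q j) = (Q j).comp σ' := by
      refine E'.ext (hTx j) (b := - C j) ?_ (E'.comp_x (hQA j)) (E'.comp_y (hQC j))
      rw [hT, at_tw, h3]
      have : (τ : k ≃+* k) (- C j) = C j := by
        change τ (- C j) = C j
        rw [map_neg, h4, neg_neg]
      rw [this]
      exact hQC j
    have h6 := hall j
    change twP (τ : k ≃+* k) Φ h1 (dif O' (Q j)) = dif O' (Q j) at h6
    rw [twP_dif, ← hT, hTO, h5, E'.dif_neg] at h6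
    have h7 : (2 : ℚ) • dif O' (Q j) = 0 := by
      rw [two_smul]
      nth_rewrite 1 [← h6]
      exact neg_add_cancel _
    exact (smul_eq_zero.1 h7).resolve_left two_ne_zero
  -- the two finite sets
  let l' : F := ⟨l, hF₀F hl₀⟩
  let m' : F := ⟨m, hF₀F hm₀⟩
  have hl'0 : l' ≠ 0 := fun h => E.l0 (congrArg Subtype.val h)
  have hl'1 : l' ≠ 1 := fun h => E.l1 (congrArg Subtype.val h)
  have hm'0 : m' ≠ 0 := fun h => E'.l0 (congrArg Subtype.val h)
  have hm'1 : m' ≠ 1 := fun h => E'.l1 (congrArg Subtype.val h)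
  have hlm' : l' ≠ m' := fun h => hlm (congrArg Subtype.val h)
  have hS := fal_finite F hl'0 hl'1 hm'0 hm'1 hlm'
  have hT := E'.torsion_finite F m' rfl
  let A' : ℕ → F := fun i => ⟨A i, hF₀F (hAF i)⟩
  have hA'inj : Function.Injective A' := by
    intro i j hij
    exact hAinj (congrArg Subtype.val hij)
  refine Set.infinite_range_of_injective hA'inj ((hS.union hT).subset ?_)
  rintro _ ⟨i, rfl⟩
  by_cases hCi : C i ∈ F
  · left
    refine ⟨⟨⟨B i, hF₀F (hBF i)⟩, Subtype.ext ?_⟩, ⟨⟨C i, hCi⟩, Subtype.ext ?_⟩⟩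
    · exact E.b_sq (hA i) (hB i)
    · exact hC i
  · right
    obtain ⟨τ, hτ⟩ : ∃ τ : k ≃ₐ[F] k, τ (C i) ≠ C i := by
      by_contra hcon
      push Not at hcon
      obtain ⟨c, hc⟩ := SF.mem_range_of_fixed hcon
      apply hCi
      rw [← hc]
      exact c.2
    refine ⟨Q i, hQA i, E'.torsion_of_dif (hgal τ i hτ)⟩

end

end Pool.Agent.H834.E
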