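import Pool.Agent.H834.E.Dbl

/-!
# Points of the curve `y² = f(x)`
-/

set_option autoImplicit false

namespace Pool.Agent.H834.E

open FF Polynomial Module

/-! ### The value of a function at a place -/

section

variable {k : Type} [Field k] [CharZero k] [IsAlgClosed k] {K : Type} [Field K] [Algebra k K]
  [IsFF k K]

/-- The function `f` is regular at `P` with value `c`. -/
def At (P : Place k K) (f : K) (c : k) : Prop := P.Reg f ∧ SF.val P f = c

variable {P : Place k K} {f g : K} {c d : k}

lemma At.unique (h : At P f c) (h' : At P f d) : c = d := h.2.symm.trans h'.2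

lemma exists_at (h : P.Reg f) : ∃ c, At P f c := ⟨_, h, rfl⟩

lemma At.add (h : At P f c) (h' : At P g d) : At P (f + g) (c + d) :=
  ⟨P.reg_add h.1 h'.1, by rw [SF.val_add P h.1 h'.1, h.2, h'.2]⟩

lemma At.mul (h : At P f c) (h' : At P g d) : At P (f * g) (c * d) :=
  ⟨P.reg_mul h.1 h'.1, by rw [SF.val_mul P h.1 h'.1, h.2, h'.2]⟩

lemma at_const (P : Place k K) (c : k) : At P (algebraMap k K c) c :=
  ⟨P.reg_const c, SF.val_const P c⟩

lemma At.neg (h : At P f c) : At P (-f) (-c) := by
  have h1 := (at_const P (-1)).mul h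
  simpa using h1

lemma At.sub (h : At P f c) (h' : At P g d) : At P (f - g) (c - d) := by
  rw [sub_eq_add_neg, sub_eq_add_neg]
  exact h.add h'.neg

lemma At.pow (h : At P f c) (n : ℕ) : At P (f ^ n) (c ^ n) := by
  induction n with
  | zero =>
    rw [pow_zero, pow_zero]
    have := at_const (K := K) P 1
    rwa [map_one] at this
  | succ n ih => rw [pow_succ, pow_succ]; exact ih.mul h

lemma At.aeval (h : At P f c) (p : k[X]) : At P (aeval f p) (p.eval c) := by
  induction p using Polynomial.induction_on' with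
  | add p q hp hq => rw [map_add, eval_add]; exact hp.add hq
  | monomial n r =>
    rw [aeval_monomial, eval_monomial]
    exact (at_const P r).mul (h.pow n)

lemma at_iff : At P f c ↔ (f = algebraMap k K c ∨ 0 < P.ord (f - algebraMap k K c)) := by
  constructor
  · intro h
    exact (SF.val_eq_iff P h.1 c).1 h.2
  · intro h
    have hr : P.Reg f := by
      rcases h with h | h
      · rw [h]; exact P.reg_const c
      · have h1 : P.Reg (f - algebraMap k K c) := Or.inr h.le
        have h2 := P.reg_add h1 (P.reg_const c)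
        rwa [sub_add_cancel] at h2
    exact ⟨hr, (SF.val_eq_iff P hr c).2 h⟩

lemma at_zero_iff : At P f 0 ↔ (f = 0 ∨ 0 < P.ord f) := by
  rw [at_iff, map_zero, sub_zero]

lemma At.ne_zero (h : At P f c) (hc : c ≠ 0) : f ≠ 0 := by
  rintro rfl
  have := at_const (K := K) P 0
  rw [map_zero] at this
  exact hc (h.unique this)

lemma At.ord_eq_zero (h : At P f c) (hc : c ≠ 0) : P.ord f = 0 := by
  have h0 := h.ne_zero hc
  have h1 := (P.reg_iff h0).1 h.1
  by_contra hne
  have h2 : At P f 0 := at_zero_iff.2 (Or.inr (by omega))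
  exact hc (h.unique h2)

lemma At.inv (h : At P f c) (hc : c ≠ 0) : At P f⁻¹ c⁻¹ := by
  have h0 := h.ne_zero hc
  have h1 := h.ord_eq_zero hc
  have h2 : P.Reg f⁻¹ := Or.inr (by rw [P.ord_inv, h1]; simp)
  obtain ⟨d, hd⟩ := exists_at h2
  have h3 := h.mul hd
  rw [mul_inv_cancel₀ h0] at h3
  have h4 := at_const (K := K) P 1
  rw [map_one] at h4
  have h5 := h3.unique h4
  rwa [eq_inv_of_mul_eq_one_right h5] at hd

lemma At.div (h : At P f c) (h' : At P g d) (hd : d ≠ 0) : At P (f / g) (c / d) := by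
  rw [div_eq_mul_inv, div_eq_mul_inv]
  exact h.mul (h'.inv hd)

lemma at_comp (σ : K ≃ₐ[k] K) : At (P.comp σ) f c ↔ At P (σ f) c := by
  rw [at_iff, at_iff]
  have h1 : (P.comp σ).ord (f - algebraMap k K c) = P.ord (σ f - algebraMap k K c) := by
    change P.ord (σ _) = _
    rw [map_sub, σ.commutes]
  rw [h1]
  have h2 : f = algebraMap k K c ↔ σ f = algebraMap k K c := by
    constructor
    · rintro rfl
      exact σ.commutes c
    · intro h
      apply σ.injective
      rw [h, σ.commutes]
  rw [h2]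

end

/-! ### Basic properties of the function field -/

section

variable {k : Type} [Field k] {K : Type} [Field K] [Algebra k K] {f : k[X]} {x y : K}

open IntermediateField in
lemma Dbl.finrank_le (h : Dbl k f x y) : FiniteDimensional k⟮x⟯ K ∧ finrank k⟮x⟯ K ≤ 2 := by
  have h1 : IntermediateField.adjoin k⟮x⟯ {y} = ⊤ := by
    rw [← IntermediateField.restrictScalars_eq_top_iff (K := k),
      IntermediateField.adjoin_adjoin_left, ← h.gen]
    rfl
  let r : k⟮x⟯ := ⟨aeval x f, aeval_mem k⟮x⟯ f (mem_adjoin_simple_self k x)⟩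
  have h2 : aeval y (X ^ 2 - C r) = 0 := by
    rw [map_sub, map_pow, aeval_X, aeval_C, h.eq]
    exact sub_self _
  have hmon : (X ^ 2 - C r).Monic := monic_X_pow_sub_C r two_ne_zero
  have h3 : IsIntegral k⟮x⟯ y := ⟨_, hmon, h2⟩
  have h4 := IntermediateField.adjoin.finrank h3
  have h5 : (minpoly k⟮x⟯ y).natDegree ≤ 2 := by
    have h6 := natDegree_le_of_dvd (minpoly.dvd _ y h2) hmon.ne_zero
    rwa [natDegree_X_pow_sub_C] at h6
  have h7 := IntermediateField.adjoin.finiteDimensional h3
  rw [h1] at h4 h7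
  rw [IntermediateField.finrank_top'] at h4
  exact ⟨IntermediateField.topEquiv.toLinearEquiv.finiteDimensional, by omega⟩
where
  aeval_mem {k K : Type} [Field k] [Field K] [Algebra k K] (F : IntermediateField k K) (f : k[X])
      {x : K} (hx : x ∈ F) : aeval x f ∈ F := by
    have := (aeval (⟨x, hx⟩ : F) f).2
    have h2 : ((aeval (⟨x, hx⟩ : F) f : F) : K) = aeval x f := by
      have := aeval_algHom_apply F.val (⟨x, hx⟩ : F) f
      exact this.symm
    rw [← h2]
    exact SetLike.coe_mem _

theorem Dbl.isFF (h : Dbl k f x y) : IsFF k K := IsFF.of_finite h.tr h.finrank_le.1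

/-- the involution `y ↦ -y` -/
theorem Dbl.exists_inv (h : Dbl k f x y) (hf : f.Separable) (hd : 0 < f.natDegree) :
    ∃ σ : K ≃ₐ[k] K, σ x = x ∧ σ y = -y := by
  obtain ⟨Φ, h1, h2, h3⟩ := h.lift hf hd (algebraMap k K) x (-y) h.inj (by
    rw [neg_sq, h.eq]; rfl)
  have hΦ : Φ.comp Φ = RingHom.id K := by
    apply h.hom_ext
    · intro c; simp [h1]
    · simp [h2]
    · simp [h3]
  let φ : K →ₐ[k] K := { Φ with commutes' := h1 }
  have hφ : φ.comp φ = AlgHom.id k K := by
    ext z
    exact congrArg (fun g => g z) hΦ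
  exact ⟨AlgEquiv.ofAlgHom φ φ hφ hφ, h2, h3⟩

end

section

variable {k : Type} [Field k] [CharZero k] [IsAlgClosed k] {K : Type} [Field K] [Algebra k K]
  [IsFF k K] {f : k[X]} {x y : K}

open IntermediateField in
omit [CharZero k] [IsAlgClosed k] [IsFF k K] in
lemma adjoin_sub (x : K) (a : k) : k⟮x - algebraMap k K a⟯ = k⟮x⟯ := by
  apply le_antisymm
  · rw [adjoin_simple_le_iff]
    exact sub_mem (mem_adjoin_simple_self k x) (IntermediateField.algebraMap_mem _ a)
  · rw [adjoin_simple_le_iff]
    have := add_mem (mem_adjoin_simple_self k (x - algebraMap k K a))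
      (IntermediateField.algebraMap_mem k⟮x - algebraMap k K a⟯ a)
    rwa [sub_add_cancel] at this

omit [CharZero k] [IsAlgClosed k] [IsFF k K] in
lemma tr_sub (hx : Transcendental k x) (a : k) : Transcendental k (x - algebraMap k K a) := by
  intro h
  apply hx
  have := h.add (isAlgebraic_algebraMap (R := k) (A := K) a)
  rwa [sub_add_cancel] at this

lemma Dbl.zeros (h : Dbl k f x y) (a : k) : ∃ S : Finset (Place k K),
    (∀ w, w ∈ S ↔ At w x a) ∧ S.Nonempty ∧
      ∑ w ∈ S, (w.ord (x - algebraMap k K a)).toNat ≤ 2 := by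
  obtain ⟨S, h1, -, h3⟩ := FF.zeros (tr_sub h.tr a)
  have hfin := h.finrank_le
  have hfin1 := hfin.1
  rw [adjoin_sub] at h3
  have hpos : 0 < finrank (IntermediateField.adjoin k {x}) K := finrank_pos
  have h4 : ∑ w ∈ S, (w.ord (x - algebraMap k K a)).toNat * w.deg =
      ∑ w ∈ S, (w.ord (x - algebraMap k K a)).toNat :=
    Finset.sum_congr rfl fun w _ => by rw [SF.deg_eq_one, mul_one]
  rw [h4] at h3
  refine ⟨S, fun w => ?_, ?_, ?_⟩
  · rw [h1, at_iff]
    constructor
    · exact Or.inr
    · rintro (h5 | h5)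
      · exact absurd (h5 ▸ isAlgebraic_algebraMap a) h.tr
      · exact h5
  · rw [Finset.nonempty_iff_ne_empty]
    rintro rfl
    rw [Finset.sum_empty] at h3
    omega
  · rw [h3]
    exact hfin.2

lemma Dbl.poles (h : Dbl k f x y) : ∃ S : Finset (Place k K),
    (∀ w, w ∈ S ↔ w.ord x < 0) ∧ S.Nonempty ∧ ∑ w ∈ S, (- w.ord x).toNat ≤ 2 := by
  obtain ⟨S, h1, h3⟩ := FF.poles h.tr
  have hfin := h.finrank_le
  have hfin1 := hfin.1
  have hpos : 0 < finrank (IntermediateField.adjoin k {x}) K := finrank_pos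
  have h4 : ∑ w ∈ S, (- w.ord x).toNat * w.deg = ∑ w ∈ S, (- w.ord x).toNat :=
    Finset.sum_congr rfl fun w _ => by rw [SF.deg_eq_one, mul_one]
  rw [h4] at h3
  refine ⟨S, h1, ?_, ?_⟩
  · rw [Finset.nonempty_iff_ne_empty]
    rintro rfl
    rw [Finset.sum_empty] at h3
    omega
  · rw [h3]
    exact hfin.2

lemma Dbl.y_at (h : Dbl k f x y) {P : Place k K} {a : k} (ha : At P x a) :
    ∃ b, At P y b ∧ b ^ 2 = f.eval a := by
  have h1 := ha.aeval f
  rw [← h.eq] at h1
  have h2 : P.Reg y := by
    rcases h1.1 with h3 | h3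
    · left; exact pow_eq_zero_iff (two_ne_zero) |>.1 h3
    · right
      rw [P.ord_pow] at h3
      push_cast at h3
      omega
  obtain ⟨b, hb⟩ := exists_at h2
  exact ⟨b, hb, (hb.pow 2).unique h1⟩

omit [CharZero k] [IsAlgClosed k] [IsFF k K] in
lemma Dbl.y_ne (h : Dbl k f x y) (hf : f.Separable) : y ≠ 0 := by
  rintro rfl
  have h1 := h.eq
  rw [zero_pow two_ne_zero] at h1
  exact h.tr ⟨f, hf.ne_zero, h1.symm⟩

lemma Dbl.ord_even (h : Dbl k f x y) (hf : f.Separable) {P : Place k K} {a : k} (ha : At P x a)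
    (hb : f.eval a = 0) : P.ord (x - algebraMap k K a) = 2 * P.ord y := by
  obtain ⟨g, hg⟩ : (X - C a) ∣ f := dvd_iff_isRoot.2 hb
  have hga : g.eval a ≠ 0 := by
    intro h0
    obtain ⟨g', hg'⟩ : (X - C a) ∣ g := dvd_iff_isRoot.2 h0
    have : IsUnit (X - C a) := hf.squarefree (X - C a) ⟨g', by rw [hg, hg']; ring⟩
    exact not_isUnit_X_sub_C a this
  have h1 := ha.aeval g
  have h2 := h1.ord_eq_zero hga
  have h3 := h1.ne_zero hga
  have h4 : y ^ 2 = (x - algebraMap k K a) * aeval x g := by
    rw [h.eq, hg, map_mul, map_sub, aeval_X, aeval_C]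
  have h5 : x - algebraMap k K a ≠ 0 := by
    intro h6
    exact tr_sub h.tr a (h6 ▸ isAlgebraic_zero)
  have h6 := congrArg P.ord h4
  rw [P.ord_pow, P.ord_mul h5 h3, h2] at h6
  push_cast at h6
  omega

omit [CharZero k] [IsAlgClosed k] [IsFF k K] in
lemma Dbl.xa_ne (h : Dbl k f x y) (a : k) : x - algebraMap k K a ≠ 0 := by
  intro h6
  exact tr_sub h.tr a (h6 ▸ isAlgebraic_zero)

/-- uniqueness of the places over `a`, up to the involution -/
lemma Dbl.over (h : Dbl k f x y) (hf : f.Separable) {σ : K ≃ₐ[k] K}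
    (hσx : σ x = x) (hσy : σ y = -y) {P : Place k K} {a b : k} (ha : At P x a) (hb : At P y b)
    (P' : Place k K) (hP' : At P' x a) :
    (P' = P ∨ P' = P.comp σ) ∧
      (b = 0 → P.ord (x - algebraMap k K a) = 2) ∧
        (b ≠ 0 → P.ord (x - algebraMap k K a) = 1) := by
  classical
  have hbf : b ^ 2 = f.eval a := by
    obtain ⟨b', h1, h2⟩ := h.y_at ha
    rw [hb.unique h1, h2]
  obtain ⟨S, h1, -, h3⟩ := h.zeros a
  have hpos : ∀ w : Place k K, At w x a → 0 < w.ord (x - algebraMap k K a) := by
    intro w hw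
    rcases at_iff.1 hw with h5 | h5
    · exact absurd (sub_eq_zero.2 h5) (h.xa_ne a)
    · exact h5
  have hsub : ∀ T : Finset (Place k K), T ⊆ S →
      ∑ w ∈ T, (w.ord (x - algebraMap k K a)).toNat ≤ 2 := fun T hT =>
    (Finset.sum_le_sum_of_subset hT).trans h3
  by_cases hb0 : b = 0
  · subst hb0
    have h0 : f.eval a = 0 := by rw [← hbf]; ring
    have hge : ∀ w : Place k K, At w x a → 2 ≤ w.ord (x - algebraMap k K a) := by
      intro w hw
      have h5 := h.ord_even hf hw h0
      have h6 := hpos w hw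
      omega
    have hPS : P ∈ S := (h1 P).2 ha
    have hPS' : P' ∈ S := (h1 P').2 hP'
    have h7 := hge P ha
    have h8 := hge P' hP'
    refine ⟨Or.inl ?_, fun _ => ?_, fun h0 => absurd rfl h0⟩
    · by_contra hne
      have h9 := hsub {P', P} (by
        intro w hw
        simp only [Finset.mem_insert, Finset.mem_singleton] at hw
        rcases hw with rfl | rfl <;> assumption)
      rw [Finset.sum_pair hne] at h9
      omega
    · have h9 := hsub {P} (Finset.singleton_subset_iff.2 hPS)
      rw [Finset.sum_singleton] at h9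
      omega
  · have hPσx : At (P.comp σ) x a := by rw [at_comp, hσx]; exact ha
    have hPσy : At (P.comp σ) y (-b) := by rw [at_comp, hσy]; exact hb.neg
    have hne : P ≠ P.comp σ := by
      intro he
      rw [← he] at hPσy
      have := hb.unique hPσy
      apply hb0
      have h2 : (2 : k) * b = 0 := by linear_combination this
      exact (mul_eq_zero.1 h2).resolve_left two_ne_zero
    have hPS : P ∈ S := (h1 P).2 ha
    have hPσS : P.comp σ ∈ S := (h1 _).2 hPσx
    have hPS' : P' ∈ S := (h1 P').2 hP'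
    have h5 := hpos P ha
    have h6 := hpos _ hPσx
    have h7 := hpos P' hP'
    refine ⟨?_, fun h0 => absurd h0 hb0, fun _ => ?_⟩
    · by_contra hc
      push Not at hc
      have h9 := hsub {P', P, P.comp σ} (by
        intro w hw
        simp only [Finset.mem_insert, Finset.mem_singleton] at hw
        rcases hw with rfl | rfl | rfl <;> assumption)
      rw [Finset.sum_insert (by simp [hc.1, hc.2]), Finset.sum_pair hne] at h9
      omega
    · have h9 := hsub {P, P.comp σ} (by
        intro w hw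
        simp only [Finset.mem_insert, Finset.mem_singleton] at hw
        rcases hw with rfl | rfl <;> assumption)
      rw [Finset.sum_pair hne] at h9
      omega

/-- A place is determined by its coordinates. -/
lemma Dbl.eq_of_at (h : Dbl k f x y) (hf : f.Separable) (hd : 0 < f.natDegree)
    {P P' : Place k K} {a b : k} (ha : At P x a) (hb : At P y b) (ha' : At P' x a)
    (hb' : At P' y b) : P' = P := by
  obtain ⟨σ, hσx, hσy⟩ := h.exists_inv hf hd
  rcases (h.over hf hσx hσy ha hb P' ha').1 with h1 | h1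
  · exact h1
  · have h2 : At P' y (-b) := by rw [h1, at_comp, hσy]; exact hb.neg
    have h3 := hb'.unique h2
    have h4 : b = 0 := by
      have h2 : (2 : k) * b = 0 := by linear_combination h3
      exact (mul_eq_zero.1 h2).resolve_left two_ne_zero
    subst h4
    obtain ⟨S, h5, -, h6⟩ := h.zeros a
    by_contra hne
    classical
    have h0 : f.eval a = 0 := by
      obtain ⟨b', h1, h2⟩ := h.y_at ha
      rw [← h2, ← hb.unique h1]; ring
    have hge : ∀ w : Place k K, At w x a → 2 ≤ w.ord (x - algebraMap k K a) := by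
      intro w hw
      have h5 := h.ord_even hf hw h0
      rcases at_iff.1 hw with h8 | h8
      · exact absurd (sub_eq_zero.2 h8) (h.xa_ne a)
      · omega
    have h9 : ∑ w ∈ {P', P}, (w.ord (x - algebraMap k K a)).toNat ≤ 2 :=
      (Finset.sum_le_sum_of_subset (by
        intro w hw
        simp only [Finset.mem_insert, Finset.mem_singleton] at hw
        rcases hw with rfl | rfl
        · exact (h5 _).2 ha'
        · exact (h5 _).2 ha)).trans h6
    rw [Finset.sum_pair hne] at h9
    have h10 := hge P ha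
    have h11 := hge P' ha'
    omega

/-- Existence of the place with given coordinates. -/
lemma Dbl.exists_at (h : Dbl k f x y) (hf : f.Separable) (hd : 0 < f.natDegree)
    {a b : k} (hab : b ^ 2 = f.eval a) : ∃ P : Place k K, At P x a ∧ At P y b := by
  obtain ⟨S, h1, ⟨P, hP⟩, -⟩ := h.zeros a
  have ha := (h1 P).1 hP
  obtain ⟨b', hb', he⟩ := h.y_at ha
  rw [← hab] at he
  rcases sq_eq_sq_iff_eq_or_eq_neg.1 he with h2 | h2
  · subst h2
    exact ⟨P, ha, hb'⟩
  · obtain ⟨σ, hσx, hσy⟩ := h.exists_inv hf hd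
    refine ⟨P.comp σ, ?_, ?_⟩
    · rw [at_comp, hσx]; exact ha
    · rw [at_comp, hσy]
      have := hb'.neg
      rwa [h2, neg_neg] at this

end

end Pool.Agent.H834.E
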