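import Pool.Agent.H834.E.Pts

/-!
# Rational equivalence on a curve is linear equivalence
-/

set_option autoImplicit false

namespace Pool.Agent.H834.E

open FF Polynomial Module Pool.Agent.Q70.CH Pool.Agent.Q70.KM

section

variable {k : Type} [Field k] [CharZero k] [IsAlgClosed k]

/-- The order of the norm. -/
theorem ord_norm {F₀ K : Type} [Field F₀] [Field K] [Algebra k F₀] [Algebra k K]
    [Algebra F₀ K] [IsScalarTower k F₀ K] [IsFF k F₀] [IsFF k K] [FiniteDimensional F₀ K]
    (p₀ : Place k F₀) (S : Finset (Place k K)) (r : Place k K → ℕ)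
    (hr1 : ∀ P ∈ S, Over P p₀ (r P)) (hr2 : ∀ P e, Over P p₀ e → P ∈ S)
    {t : K} (ht : t ≠ 0) :
    p₀.ord (Algebra.norm F₀ t) = ∑ P ∈ S, P.ord t := by
  classical
  obtain ⟨L, _, _, _, _, _, _, J, _, φ, hJ, hφ, hN⟩ := exists_conjugates (k := k) F₀ K
  obtain ⟨Q, hQ0⟩ := exists_above (IsScalarTower.toAlgHom k F₀ L) (by
    change (algebraMap F₀ L).Finite
    exact RingHom.finite_algebraMap.2 inferInstance) p₀
  obtain ⟨e₀, he₀, hQ1⟩ := below_spec (IsScalarTower.toAlgHom k F₀ L) Q
  rw [hQ0] at hQ1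
  have hQ : Over Q p₀ e₀ := ⟨he₀, hQ1⟩
  have hS : ∀ j, below (φ j) Q ∈ S ∧
      ∃ e : ℕ, e * r (below (φ j) Q) = e₀ ∧ ∀ f, Q.ord (φ j f) = e * (below (φ j) Q).ord f := by
    intro j
    obtain ⟨e, he, h⟩ := below_spec (φ j) Q
    obtain ⟨p', a', ha', hp'⟩ := exists_below (IsScalarTower.toAlgHom k F₀ K) (below (φ j) Q)
    have h1 : ∀ f, Q.ord (algebraMap F₀ L f) = ((e * a' : ℕ) : ℤ) * p'.ord f := by
      intro f
      rw [← hφ j f, h]
      have := hp' f
      change (below (φ j) Q).ord (algebraMap F₀ K f) = _ at this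
      rw [this]; push_cast; ring
    obtain ⟨h2, h3⟩ := over_unique hQ.1 hQ.2 h1
    subst h2
    have h4 : Over (below (φ j) Q) p₀ a' := ⟨ha', hp'⟩
    have h5 := hr2 _ _ h4
    have h6 := hr1 _ h5
    have h7 := (over_unique h4.1 h4.2 h6.2).2
    exact ⟨h5, e, by rw [← h7, h3], h⟩
  choose hS1 e he1 he2 using hS
  have hcard : ∀ P ∈ S, (Finset.univ.filter fun j => below (φ j) Q = P).card = r P :=
    fun P hP => card_below φ hJ hφ hN Q p₀ e₀ hQ P (r P) (hr1 P hP)
  have hsum : ∀ P ∈ S, ∑ j ∈ Finset.univ.filter (fun j => below (φ j) Q = P), (e j : ℤ) = e₀ := by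
    intro P hP
    have h1 : (r P : ℤ) * ∑ j ∈ Finset.univ.filter (fun j => below (φ j) Q = P), (e j : ℤ) =
        r P * e₀ := by
      rw [Finset.mul_sum]
      have h2 : ∀ j ∈ Finset.univ.filter (fun j => below (φ j) Q = P),
          (r P : ℤ) * (e j : ℤ) = e₀ := by
        intro j hj
        rw [Finset.mem_filter] at hj
        have := he1 j
        rw [hj.2] at this
        rw [← this]; push_cast; ring
      rw [Finset.sum_congr rfl h2, Finset.sum_const, hcard P hP, nsmul_eq_mul]
    have h3 : (r P : ℤ) ≠ 0 := by have := (hr1 P hP).1; omega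
    exact mul_left_cancel₀ h3 h1
  have h1 : (e₀ : ℤ) * p₀.ord (Algebra.norm F₀ t) = e₀ * ∑ P ∈ S, P.ord t := by
    have h2 := hQ.2 (Algebra.norm F₀ t)
    rw [← h2, hN, ord_prod' _ _ _ fun j _ => by simpa using ht]
    have h3 : ∀ j ∈ (Finset.univ : Finset J), Q.ord (φ j t) = (e j : ℤ) * (below (φ j) Q).ord t :=
      fun j _ => he2 j t
    rw [Finset.sum_congr rfl h3, Finset.mul_sum,
      ← Finset.sum_fiberwise_of_maps_to (t := S) (g := fun j => below (φ j) Q) (fun j _ => hS1 j)]
    refine Finset.sum_congr rfl fun P hP => ?_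
    rw [← hsum P hP, Finset.sum_mul]
    refine Finset.sum_congr rfl fun j hj => ?_
    rw [Finset.mem_filter] at hj
    rw [hj.2]
  have h4 : (e₀ : ℤ) ≠ 0 := by omega
  exact mul_left_cancel₀ h4 h1

lemma mapDomain_fiber {A B : Type} (s : A → B) (b : B) (S : Finset A) (hS : ∀ a, a ∈ S ↔ s a = b)
    (v : A →₀ ℚ) : (v.mapDomain s) b = ∑ a ∈ S, v a := by
  classical
  induction v using Finsupp.induction_linear with
  | zero => simp
  | add v w hv hw => rw [Finsupp.mapDomain_add, Finsupp.add_apply, hv, hw, ← Finset.sum_add_distrib]; rfl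
  | single a c =>
    rw [Finsupp.mapDomain_single]
    by_cases h : s a = b
    · rw [h, Finsupp.single_eq_same]
      rw [Finset.sum_eq_single a]
      · rw [Finsupp.single_eq_same]
      · intro a' _ hne
        rw [Finsupp.single_apply, if_neg (Ne.symm hne)]
      · intro h1
        exact absurd ((hS a).2 h) h1
    · rw [Finsupp.single_apply, if_neg h]
      symm
      apply Finset.sum_eq_zero
      intro a' ha'
      rw [Finsupp.single_apply, if_neg]
      rintro rfl
      exact h ((hS a).1 ha')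

/-- The push-forward of a principal divisor is principal. -/
theorem push_div {F₀ K : Type} [Field F₀] [Field K] [Algebra k F₀] [Algebra k K]
    [Algebra F₀ K] [IsScalarTower k F₀ K] [IsFF k F₀] [IsFF k K] [FiniteDimensional F₀ K]
    (s : Place k K → Place k F₀)
    (hs : ∀ Q, ∃ e : ℕ, 0 < e ∧ ∀ f, Q.ord (algebraMap F₀ K f) = e * (s Q).ord f)
    {t : K} (ht : t ≠ 0) :
    (qdiv (k := k) t).mapDomain s = qdiv (k := k) (Algebra.norm F₀ t) := by
  ext p₀
  obtain ⟨S, r, hr1, hr2, -⟩ := exists_fibre (K := K) p₀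
  have hS : ∀ Q, Q ∈ S ↔ s Q = p₀ := by
    intro Q
    obtain ⟨e, he, h⟩ := hs Q
    constructor
    · intro hQ
      have := hr1 Q hQ
      exact (over_unique he h this.2).1
    · rintro rfl
      exact hr2 Q e ⟨he, h⟩
  rw [mapDomain_fiber s p₀ S hS, qdiv_apply, ord_norm p₀ S r hr1 hr2 ht]
  push_cast
  rfl

omit [CharZero k] [IsAlgClosed k] in
theorem finite_of_hom {K B : Type} [Field K] [Field B] [Algebra k K] [Algebra k B] [IsFF k K]
    [IsFF k B] [Algebra K B] [IsScalarTower k K B] : FiniteDimensional K B := by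
  obtain ⟨t, ht⟩ := IsFF.exists_transcendental (k := k) (K := K)
  have ht' : Transcendental k (algebraMap K B t) := by
    intro h
    exact ht ((isAlgebraic_algebraMap_iff (FaithfulSMul.algebraMap_injective K B)).1 h)
  have h1 := IsFF.finite ht'
  let φ := IsScalarTower.toAlgHom k K B
  have h3 : IntermediateField.adjoin k {algebraMap K B t} ≤ φ.fieldRange := by
    rw [IntermediateField.adjoin_simple_le_iff]
    exact ⟨t, rfl⟩
  have h4 : FiniteDimensional φ.fieldRange B := by
    let _ : Algebra (IntermediateField.adjoin k {algebraMap K B t}) φ.fieldRange :=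
      (IntermediateField.inclusion h3).toAlgebra
    have : IsScalarTower (IntermediateField.adjoin k {algebraMap K B t}) φ.fieldRange B :=
      IsScalarTower.of_algebraMap_eq fun _ => rfl
    exact Module.Finite.of_restrictScalars_finite
      (IntermediateField.adjoin k {algebraMap K B t}) φ.fieldRange B
  obtain ⟨b, hb⟩ := Module.finite_def.1 h4
  refine Module.finite_def.2 ⟨b, ?_⟩
  rw [eq_top_iff]
  rintro z -
  have hz : z ∈ Submodule.span φ.fieldRange (b : Set B) := by rw [hb]; trivial
  induction hz using Submodule.span_induction with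
  | mem x hx => exact Submodule.subset_span hx
  | zero => exact zero_mem _
  | add x y _ _ hx hy => exact add_mem hx hy
  | smul a x _ hx =>
    obtain ⟨c, hc⟩ := a.2
    have : a • x = c • x := by
      rw [Algebra.smul_def, Algebra.smul_def]
      congr 1
      exact hc.symm
    rw [this]
    exact Submodule.smul_mem _ c hx

lemma mapDomain_const {A B : Type} (b : B) (v : A →₀ ℚ) :
    v.mapDomain (fun _ => b) = Finsupp.single b (dg v) := by
  induction v using Finsupp.induction_linear with
  | zero => simp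
  | add v w hv hw => rw [Finsupp.mapDomain_add, hv, hw, map_add, Finsupp.single_add]
  | single a c => rw [Finsupp.mapDomain_single, dg_single]

/-- Rational equivalence on a smooth projective curve is linear equivalence. -/
theorem rat1_le (K : Type) [Field K] [Algebra k K] [IsFF k K] :
    rat1 k K ≤ Submodule.span ℚ {z | ∃ t : K, t ≠ 0 ∧ z = qdiv (k := k) t} := by
  let W : Submodule ℚ ((curve (k := k) K).pts →₀ ℚ) :=
    Submodule.span ℚ {z | ∃ t : K, t ≠ 0 ∧ z = qdiv (k := k) t}
  suffices h : ratTriv (curve (k := k) K) ≤ W from h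
  unfold ratTriv
  rw [Submodule.span_le]
  rintro _ ⟨B, _, _, _, s, hs, t, ht, rfl⟩
  rcases hs with ⟨P, hP⟩ | ⟨φ, hφ⟩
  · have h1 : (qdiv (k := k) t).mapDomain s = 0 := by
      have hsP : s = fun _ => P := funext hP
      rw [hsP]
      exact (mapDomain_const P _).trans (by rw [dg_qdiv, Finsupp.single_zero]; rfl)
    rw [h1]
    exact zero_mem _
  · let _ : Algebra K B := φ.toRingHom.toAlgebra
    have : IsScalarTower k K B := IsScalarTower.of_algebraMap_eq fun c => (φ.commutes c).symm
    have hfin : FiniteDimensional K B := finite_of_hom (k := k)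
    refine Submodule.subset_span ⟨Algebra.norm K t, ?_, ?_⟩
    · rw [Algebra.norm_ne_zero_iff]
      exact ht
    · exact push_div s hφ ht

omit [IsAlgClosed k] in
lemma qdiv_mem {K : Type} [Field K] [Algebra k K] [IsFF k K] {t : K} (ht : t ≠ 0) :
    qdiv (k := k) t ∈ rat1 k K := by
  have h0 : (qdiv (k := k) t).mapDomain (fun Q : Place k K => Q) ∈ ratTriv (curve (k := k) K) := by
    unfold ratTriv
    exact Submodule.subset_span ⟨K, inferInstance, inferInstance, inferInstance, fun Q => Q,
      Or.inr ⟨AlgHom.id k K, fun Q => ⟨1, one_pos, fun f => by simp⟩⟩, t, ht, rfl⟩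
  have h1 : (qdiv (k := k) t).mapDomain (fun Q : Place k K => Q) = qdiv (k := k) t :=
    Finsupp.mapDomain_id
  rw [← h1]
  exact h0

end

end Pool.Agent.H834.E
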