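import Pool.Agent.H834.E.Cls

/-!
# Zero-cycles on a product of two curves: the exterior product
-/

set_option autoImplicit false
set_option linter.unusedSectionVars false

namespace Pool.Agent.H834.E

open FF Module Pool.Agent.Q70.CH Pool.Agent.Q70.KM

/-- `CH_0(C × D) ⊗ ℚ`, for the curves `C`, `D` with function fields `K`, `L`: the zero-cycles with
rational coefficients modulo rational equivalence. -/
def CH0 (k : Type) [Field k] [CharZero k] (K : Type) [Field K] [Algebra k K]
    (L : Type) [Field L] [Algebra k L] : Type := (Place k K × Place k L →₀ ℚ) ⧸ rat3 k K L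

noncomputable instance (k : Type) [Field k] [CharZero k] (K : Type) [Field K] [Algebra k K]
    (L : Type) [Field L] [Algebra k L] : AddCommGroup (CH0 k K L) :=
  Submodule.Quotient.addCommGroup (rat3 k K L)

noncomputable instance (k : Type) [Field k] [CharZero k] (K : Type) [Field K] [Algebra k K]
    (L : Type) [Field L] [Algebra k L] : Module ℚ (CH0 k K L) :=
  Submodule.Quotient.module (rat3 k K L)

section

variable {k : Type} [Field k] [CharZero k] {K : Type} [Field K] [Algebra k K]
  {L : Type} [Field L] [Algebra k L]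

/-- The class of a zero-cycle in `CH_0(C × D) ⊗ ℚ`. -/
noncomputable def cl2 : (Place k K × Place k L →₀ ℚ) →ₗ[ℚ] CH0 k K L := (rat3 k K L).mkQ

/-- The exterior product `a × b` of the zero-cycles `a` on `C` and `b` on `D`. -/
noncomputable def cross :
    (Place k K →₀ ℚ) →ₗ[ℚ] (Place k L →₀ ℚ) →ₗ[ℚ] (Place k K × Place k L →₀ ℚ) :=
  Finsupp.linearCombination ℚ (fun P => Finsupp.linearCombination ℚ
    (fun Q => Finsupp.single (P, Q) 1))

lemma cross_single (P : Place k K) (Q : Place k L) :
    cross (Finsupp.single P 1) (Finsupp.single Q 1) = Finsupp.single (P, Q) 1 := by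
  simp [cross]

lemma cl2_eq_zero {z : Place k K × Place k L →₀ ℚ} : cl2 z = 0 ↔ z ∈ rat3 k K L :=
  Submodule.Quotient.mk_eq_zero (rat3 k K L)

lemma cross_flip (Q : Place k L) : (cross (k := k) (K := K)).flip (Finsupp.single Q 1) =
    Finsupp.lmapDomain ℚ ℚ (fun P => (P, Q)) := by
  apply Finsupp.lhom_ext'
  intro P
  apply LinearMap.ext_ring
  simp [cross]

lemma cross_one (P : Place k K) : cross (k := k) (L := L) (Finsupp.single P 1) =
    Finsupp.lmapDomain ℚ ℚ (fun Q => (P, Q)) := by
  apply Finsupp.lhom_ext'
  intro Q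
  apply LinearMap.ext_ring
  simp [cross]

lemma cross_left {x : Place k K →₀ ℚ} (hx : x ∈ rat1 k K) (y : Place k L →₀ ℚ) :
    cross x y ∈ rat3 k K L := by
  induction y using Finsupp.induction_linear with
  | zero => rw [map_zero]; exact zero_mem _
  | add v w hv hw => rw [map_add]; exact add_mem hv hw
  | single Q c =>
    have h1 : cross x (Finsupp.single Q c) = c • x.mapDomain (fun P => (P, Q)) := by
      have h2 : (Finsupp.single Q c : Place k L →₀ ℚ) = c • Finsupp.single Q 1 := by
        rw [Finsupp.smul_single, smul_eq_mul, mul_one]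
      rw [h2, map_smul]
      exact congrArg (fun z => c • z) (congrArg (fun g => g x) (cross_flip (k := k) (K := K) Q))
    rw [h1]
    exact Submodule.smul_mem _ _ (mapDomain_mem (X := curve (k := k) K)
      (Y := (curve (k := k) K).prod (curve L)) (isMap_pr Q) hx)

lemma cross_right (x : Place k K →₀ ℚ) {y : Place k L →₀ ℚ} (hy : y ∈ rat1 k L) :
    cross x y ∈ rat3 k K L := by
  induction x using Finsupp.induction_linear with
  | zero => rw [map_zero]; exact zero_mem _
  | add v w hv hw => rw [map_add, LinearMap.add_apply]; exact add_mem hv hw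
  | single P c =>
    have h1 : cross (Finsupp.single P c) y = c • y.mapDomain (fun Q => (P, Q)) := by
      have h2 : (Finsupp.single P c : Place k K →₀ ℚ) = c • Finsupp.single P 1 := by
        rw [Finsupp.smul_single, smul_eq_mul, mul_one]
      rw [h2, map_smul, LinearMap.smul_apply, cross_one]
      rfl
    rw [h1]
    exact Submodule.smul_mem _ _ (mapDomain_mem (X := curve (k := k) L)
      (Y := (curve (k := k) K).prod (curve L)) (isMap_pl P) hy)

/-- The exterior product `Pic(C) ⊗ ℚ × Pic(D) ⊗ ℚ → CH_0(C × D) ⊗ ℚ`. -/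
noncomputable def times : PicQ k K →ₗ[ℚ] PicQ k L →ₗ[ℚ] CH0 k K L :=
  (rat1 k K).liftQ
    { toFun := fun a => (rat1 k L).liftQ ((cl2 (k := k) (K := K) (L := L)).comp (cross a))
        (fun b hb => LinearMap.mem_ker.2 (cl2_eq_zero.2 (cross_right a hb)))
      map_add' := fun a a' => by
        apply LinearMap.ext
        intro b
        obtain ⟨b, rfl⟩ := Submodule.mkQ_surjective _ b
        change cl2 (cross (a + a') b) = cl2 (cross a b) + cl2 (cross a' b)
        rw [map_add, LinearMap.add_apply, map_add]
      map_smul' := fun c a => by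
        apply LinearMap.ext
        intro b
        obtain ⟨b, rfl⟩ := Submodule.mkQ_surjective _ b
        change cl2 (cross (c • a) b) = c • cl2 (cross a b)
        rw [map_smul, LinearMap.smul_apply, map_smul] }
    (fun a ha => LinearMap.mem_ker.2 (by
      apply LinearMap.ext
      intro b
      obtain ⟨b, rfl⟩ := Submodule.mkQ_surjective _ b
      exact cl2_eq_zero.2 (cross_left ha b)))

lemma times_mk (a : Place k K →₀ ℚ) (b : Place k L →₀ ℚ) :
    times (mkP a) (mkP b) = cl2 (cross a b) := rfl

lemma times_pt (P : Place k K) (Q : Place k L) :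
    times (pt P) (pt Q) = cl2 (Finsupp.single (P, Q) 1) := by
  unfold pt
  rw [times_mk, cross_single]

end

/-- The classes of degree zero in `Pic(C) ⊗ ℚ`. -/
noncomputable def Pic0 (k : Type) [Field k] [CharZero k] (K : Type) [Field K] [Algebra k K] :
    Submodule ℚ (PicQ k K) :=
  (LinearMap.ker (Finsupp.linearCombination ℚ (fun _ : Place k K => (1 : ℚ)))).map mkP

/-- The space of the classes `β` of degree zero on `D` with `α × β = 0` in `CH_0(C × D) ⊗ ℚ`. -/
noncomputable def annih {k : Type} [Field k] [CharZero k] {K : Type} [Field K] [Algebra k K]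
    {L : Type} [Field L] [Algebra k L] (α : PicQ k K) : Submodule ℚ (PicQ k L) :=
  Pic0 k L ⊓ LinearMap.ker (times α)

end Pool.Agent.H834.E
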